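import Pool.Agent.T6.H21.GH.Cnt4

/-!
# From Lie algebras to the generalized Hodge conjecture (helper21)
-/

set_option autoImplicit false

open Matrix PowerSeries Pool.Agent.Y119.HY Pool.Agent.Y119.HZ Pool.Agent.Y118.CM Pool.Agent.Y113.MT

namespace Pool.Agent.T6.H21.GH

/-- the form is alternating and nondegenerate -/
theorem form_anti {m : ℕ} {C : Matrix (Fin (2 * m)) (Fin (2 * m)) ℂ} {A : Matrix (Fin (2 * m)) (Fin (2 * m)) ℚ} {κ : ℂ}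
    (hC : C.det ≠ 0) (hκ : κ ≠ 0) (hA : C * cq A * Cᵀ = κ • SS ℂ (2 * m)) : Aᵀ = -A ∧ A.det ≠ 0 := by
  have hu : IsUnit C.det := isUnit_iff_ne_zero.2 hC
  have huT : IsUnit Cᵀ.det := by rwa [Matrix.det_transpose]
  constructor
  · have h1 : C * cq (Aᵀ) * Cᵀ = C * cq (-A) * Cᵀ := by
      have h2 := congrArg Matrix.transpose hA
      rw [transpose_mul, transpose_mul, transpose_transpose, transpose_smul, SS_tr, smul_neg, ← hA] at h2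
      have h3 : (cq A)ᵀ = cq Aᵀ := rfl
      have h4 : cq (-A) = -cq A := by
        ext i j
        show ((((-A) i j : ℚ)) : ℂ) = -((A i j : ℚ) : ℂ)
        rw [Matrix.neg_apply, Rat.cast_neg]
      rw [h4, Matrix.mul_neg, Matrix.neg_mul, ← h2, h3, Matrix.mul_assoc]
    have h5 : cq (Aᵀ) = cq (-A) := by
      have h7 : ∀ X : Matrix (Fin (2 * m)) (Fin (2 * m)) ℂ, C⁻¹ * (C * X * Cᵀ) * (Cᵀ)⁻¹ = X := by
        intro X
        calc C⁻¹ * (C * X * Cᵀ) * (Cᵀ)⁻¹ = (C⁻¹ * C) * X * (Cᵀ * (Cᵀ)⁻¹) := by simp only [Matrix.mul_assoc]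
          _ = X := by rw [Matrix.nonsing_inv_mul _ hu, Matrix.mul_nonsing_inv _ huT, Matrix.one_mul, Matrix.mul_one]
      rw [← h7 (cq (Aᵀ)), h1, h7]
    exact cq_inj h5
  · intro h0
    have h1 : (cq A).det = 0 := by rw [cq_det, h0, Rat.cast_zero]
    have h2 := congrArg Matrix.det hA
    rw [Matrix.det_mul, Matrix.det_mul, h1, mul_zero, zero_mul, Matrix.det_smul] at h2
    exact mul_ne_zero (pow_ne_zero _ hκ) (SS_det m) h2.symm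

/-- the generalized Hodge conjecture is inherited by the products -/
def Trans {k n d : ℕ} (V : Fin k → ℕ → Submodule ℂ (Fin n → ℂ)) (U : ℤ → Submodule ℂ (Fin d → ℂ)) : Prop :=
  ∀ (deg : Fin d → ℕ) (N : ℕ → Submodule ℚ (Fin d → ℚ)), GHCZ deg U N →
  ∀ (r s : ℕ) (ν : Fin s → ℕ) (c : Fin r → Fin k) (i j : ℕ) (S : Submodule ℚ (Ten ℚ r s n d)),
  (∀ t ∈ S, ∀ J b, t J b ≠ 0 → ∑ x, Sum.elim (fun e => 2 * ν e) (fun _ => n - 1) (J x) + deg b = i) →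
  (∀ t ∈ S, ∀ J b, t J b ≠ 0 → One c J) →
  (∀ t ∈ S, cx t ∈ Submodule.span ℂ {y | y ∈ cW S ∧ ∃ P : ℤ, (j : ℤ) ≤ P ∧ P ≤ (i : ℤ) - j ∧ y ∈ Types ν V c U P}) →
  S ≤ coniv n ν N j

theorem trans_of_lie {m : ℕ} {β : Fin m → ℚ} (hm : 2 ≤ m) (hβ : ∀ j, ∀ a : ℤ, β j ≠ a) {k d : ℕ} {τ : Fin k → ℕ}
    (h2 : ∀ i, 2 ≤ τ i) {C : Matrix (Fin (2 * m)) (Fin (2 * m)) ℂ} {A : Matrix (Fin (2 * m)) (Fin (2 * m)) ℚ} {κ : ℂ}
    (hC : C.det ≠ 0) (hκ : κ ≠ 0) (hA : C * cq A * Cᵀ = κ • SS ℂ (2 * m))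
    {Fil Hh : Fin k → ℕ → Submodule ℂ (Fin (2 * m) → ℂ)}
    (hFil : ∀ i p, m ≤ p → Fil i p = Fl β (τ i) C p) (hHh : ∀ i, Polarised (Fil i) A (Hh i))
    {U : ℤ → Submodule ℂ (Fin d → ℂ)} (hU : DirectSum.IsInternal U) (hlie : LieProp A Hh U) : Trans Hh U := by
  obtain ⟨hQ, -⟩ := hQ_of hm hβ
  choose hAt B cc hc hBd hBA hBH hHB using fun i : Fin k => adapted (by omega) hQ (h2 i) hC hκ hA (hFil i) (hHh i)
  obtain ⟨h3, h4⟩ := form_anti hC hκ hA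
  intro deg N hZ r s ν c i j S hdeg hone htype
  exact ghc (by omega) h3 h4 hBd hHB hU hlie hZ i j S hdeg hone htype

end Pool.Agent.T6.H21.GH
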