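import Pool.Agent.T6.H21.GH.Fin
import Pool.Agent.Y113.MT.Cnt3

/-!
# Almost all tuples of fibres, Lie algebra form (helper21, after `Pool.Agent.Y113.MT.Cnt3`)
-/

set_option autoImplicit false
set_option maxHeartbeats 1000000

open Matrix PowerSeries Pool.Agent.Y119.HY Pool.Agent.Y119.HZ Pool.Agent.Y118.CM Pool.Agent.Y113.MT

namespace Pool.Agent.T6.H21.GH

section
variable {m : ℕ} {β : Fin m → ℚ}

/-- a tuple without bad pairs -/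
lemma lprop_of_good (rb : S_RB) (hm : 2 ≤ m) (hQ : QD (2 * m) (QB β))
    {k N : ℕ} {τ : Fin k → ℕ} (h2 : ∀ i, 2 ≤ τ i)
    {C : Matrix (Fin (2 * m)) (Fin (2 * m)) ℂ} {A : Matrix (Fin (2 * m)) (Fin (2 * m)) ℚ} {κ : ℂ} (hC : C.det ≠ 0)
    (hκ : κ ≠ 0) (hA : C * cq A * Cᵀ = κ • SS ℂ (2 * m)) {Fil Hh : Fin k → ℕ → Submodule ℂ (Fin (2 * m) → ℂ)}
    (hFil : ∀ i p, m ≤ p → Fil i p = Fl β (τ i) C p) (hHh : ∀ i, Polarised (Fil i) A (Hh i))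
    {U : ℤ → Submodule ℂ (Fin N → ℂ)} (hU : DirectSum.IsInternal U)
    (hP : ∀ i j, i ≠ j → ∀ Φ : Matrix (Fin (2 * m)) (Fin (2 * m)) ℂ, (∀ p < 2 * m, ∀ v ∈ Hh j p, v ᵥ* Φ = (p : ℂ) • v) →
      ¬ Bad β (τ i) C A Φ)
    (hW : ∀ i, ∀ ΦW : Matrix (Fin N) (Fin N) ℂ, (∀ p, ∀ z ∈ U p, z ᵥ* ΦW = (p : ℂ) • z) → ¬ Bad β (τ i) C A ΦW) :
    LieProp A Hh U := by
  choose hAt B cc hc hBd hBA hBH hHB using fun i : Fin k => adapted (by omega) hQ (h2 i) hC hκ hA (hFil i) (hHh i)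
  have hAd : ∀ _ : Fin k, A.det ≠ 0 := by
    intro i h0
    have h1 : (cq A).det = 0 := by rw [cq_det, h0, Rat.cast_zero]
    have h2 := congrArg Matrix.det (hBA i)
    rw [Matrix.det_mul, Matrix.det_mul, h1, mul_zero, zero_mul, Matrix.det_smul] at h2
    exact mul_ne_zero (pow_ne_zero _ (hc i)) (SS_det m) h2.symm
  intro Φ ΦW hΦ hΦW 𝔪 hbr hmm
  refine rb (Fin k) (2 * m) N (fun _ => A) hAt hAd 𝔪 hbr ?_ ?_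
  · intro i j hij X hX
    let π : (Fin k → Matrix (Fin (2 * m)) (Fin (2 * m)) ℚ) × Matrix (Fin N) (Fin N) ℚ →ₗ[ℚ]
        Matrix (Fin (2 * m)) (Fin (2 * m)) ℚ × Matrix (Fin (2 * m)) (Fin (2 * m)) ℚ :=
      { toFun := fun Y => (Y.1 i, Y.1 j)
        map_add' := fun _ _ => rfl
        map_smul' := fun _ _ => rfl }
    let πC : (Fin k → Matrix (Fin (2 * m)) (Fin (2 * m)) ℂ) × Matrix (Fin N) (Fin N) ℂ →ₗ[ℂ]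
        Matrix (Fin (2 * m)) (Fin (2 * m)) ℂ × Matrix (Fin (2 * m)) (Fin (2 * m)) ℂ :=
      { toFun := fun Y => (Y.1 i, Y.1 j)
        map_add' := fun _ _ => rfl
        map_smul' := fun _ _ => rfl }
    by_contra hcon
    refine hP i j hij (Φ j) (hΦ j) ⟨Fil i, Hh i, hFil i, hHh i, Φ i, hΦ i, 𝔪.map π, ?_, ?_, X, hX, ?_⟩
    · rintro _ ⟨Y, hY, rfl⟩ _ ⟨Y', hY', rfl⟩
      exact ⟨_, hbr Y hY Y' hY', rfl⟩
    · have h3 := Submodule.mem_map_of_mem (f := πC) hmm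
      rw [Submodule.map_span] at h3
      refine Submodule.span_mono ?_ h3
      rintro _ ⟨_, ⟨Y, hY, rfl⟩, rfl⟩
      exact ⟨(Y.1 i, Y.1 j), ⟨Y, hY, rfl⟩, rfl⟩
    · rintro ⟨Y, hY, hYX⟩
      exact hcon ⟨Y, hY, congrArg Prod.fst hYX, congrArg Prod.snd hYX⟩
  · intro i X hX
    let π : (Fin k → Matrix (Fin (2 * m)) (Fin (2 * m)) ℚ) × Matrix (Fin N) (Fin N) ℚ →ₗ[ℚ]
        Matrix (Fin (2 * m)) (Fin (2 * m)) ℚ × Matrix (Fin N) (Fin N) ℚ :=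
      { toFun := fun Y => (Y.1 i, Y.2)
        map_add' := fun _ _ => rfl
        map_smul' := fun _ _ => rfl }
    let πC : (Fin k → Matrix (Fin (2 * m)) (Fin (2 * m)) ℂ) × Matrix (Fin N) (Fin N) ℂ →ₗ[ℂ]
        Matrix (Fin (2 * m)) (Fin (2 * m)) ℂ × Matrix (Fin N) (Fin N) ℂ :=
      { toFun := fun Y => (Y.1 i, Y.2)
        map_add' := fun _ _ => rfl
        map_smul' := fun _ _ => rfl }
    by_contra hcon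
    refine hW i ΦW hΦW ⟨Fil i, Hh i, hFil i, hHh i, Φ i, hΦ i, 𝔪.map π, ?_, ?_, X, hX, ?_⟩
    · rintro _ ⟨Y, hY, rfl⟩ _ ⟨Y', hY', rfl⟩
      exact ⟨_, hbr Y hY Y' hY', rfl⟩
    · have h3 := Submodule.mem_map_of_mem (f := πC) hmm
      rw [Submodule.map_span] at h3
      refine Submodule.span_mono ?_ h3
      rintro _ ⟨_, ⟨Y, hY, rfl⟩, rfl⟩
      exact ⟨(Y.1 i, Y.2), ⟨Y, hY, rfl⟩, rfl⟩
    · rintro ⟨Y, hY, hYX⟩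
      exact hcon ⟨Y, hY, congrArg Prod.fst hYX, congrArg Prod.snd hYX⟩

/-- **Almost all tuples of fibres and an arbitrary Hodge structure.** -/
theorem tup_count_lie (kw : S_KW) (nf : S_NF) (td : S_TD) (rb : S_RB) (wf : S_WF) (sim : S_SIM) (int : S_INT) (dim : S_DIM) (cn : S_CNT) (uni : S_UNI) (ctk : S_CTK)
    (hm : 2 ≤ m) (hβ : ∀ j, ∀ a : ℤ, β j ≠ a) (k N : ℕ) : ∃ δ K : ℝ, 0 < δ ∧
      ∀ (C : Matrix (Fin (2 * m)) (Fin (2 * m)) ℂ) (M : Matrix (Fin (2 * m)) (Fin (2 * m)) ℚ) (q : ℂ), C.det ≠ 0 → q ≠ 0 →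
      C * cq M = q • (NN ℂ (2 * m) * C) →
      ∀ (A : Matrix (Fin (2 * m)) (Fin (2 * m)) ℚ) (κ : ℂ), κ ≠ 0 → C * cq A * Cᵀ = κ • SS ℂ (2 * m) →
      ∀ (U : ℤ → Submodule ℂ (Fin N → ℂ)), DirectSum.IsInternal U → ∀ T : ℕ, 1 ≤ T →
      ({τ : Fin k → ℕ | (∀ i, τ i ≤ T) ∧ ∃ Fil Hh : Fin k → ℕ → Submodule ℂ (Fin (2 * m) → ℂ),
        (∀ i p, m ≤ p → Fil i p = Fl β (τ i) C p) ∧ (∀ i, Polarised (Fil i) A (Hh i)) ∧ ¬ (LieProp A Hh U ∧ ∀ i, 2 ≤ τ i)}.ncard : ℝ) ≤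
        K * (T : ℝ) ^ ((k : ℝ) - δ) := by
  obtain ⟨hQ, -⟩ := hQ_of hm hβ
  obtain ⟨δ1, K1, hδ1, hδ1', hK1, h1⟩ := bad_count kw nf td rb wf sim int dim cn hm hβ (2 * m)
  obtain ⟨δ2, K2, hδ2, hδ2', hK2, h2⟩ := bad_count kw nf td rb wf sim int dim cn hm hβ N
  obtain ⟨K', hK'⟩ := ctk k (min δ1 δ2) (K1 + K2 + 2) (by linarith)
  refine ⟨min δ1 δ2, K', lt_min hδ1 hδ2, fun C M q hC hq hM A κ hκ hA U hU T hT => ?_⟩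
  obtain ⟨ΨW, hΨW⟩ := Pool.Agent.Y658.MT.op N U hU
  have hT' : (1 : ℝ) ≤ (T : ℝ) := by exact_mod_cast hT
  have hone : (1 : ℝ) ≤ (T : ℝ) ^ (1 - min δ1 δ2) := Real.one_le_rpow hT' (by linarith [min_le_left δ1 δ2])
  have hle1 : (T : ℝ) ^ (1 - δ1) ≤ (T : ℝ) ^ (1 - min δ1 δ2) :=
    Real.rpow_le_rpow_of_exponent_le hT' (by linarith [min_le_left δ1 δ2])
  have hle2 : (T : ℝ) ^ (1 - δ2) ≤ (T : ℝ) ^ (1 - min δ1 δ2) :=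
    Real.rpow_le_rpow_of_exponent_le hT' (by linarith [min_le_right δ1 δ2])
  have hpos : (0 : ℝ) ≤ (T : ℝ) ^ (1 - min δ1 δ2) := le_trans zero_le_one hone
  have h3 := hK' T hT (fun t s => 2 ≤ s ∧ ∃ Fil Hh : ℕ → Submodule ℂ (Fin (2 * m) → ℂ), (∀ p, m ≤ p → Fil p = Fl β s C p) ∧
      Polarised Fil A Hh ∧ ∃ Φ : Matrix (Fin (2 * m)) (Fin (2 * m)) ℂ, (∀ p < 2 * m, ∀ v ∈ Hh p, v ᵥ* Φ = (p : ℂ) • v) ∧
      Bad β t C A Φ) (fun t => t ≤ 1 ∨ Bad β t C A ΨW) (fun s => by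
    by_cases hne : ∃ t0, 2 ≤ s ∧ ∃ Fil Hh : ℕ → Submodule ℂ (Fin (2 * m) → ℂ), (∀ p, m ≤ p → Fil p = Fl β s C p) ∧
        Polarised Fil A Hh ∧ ∃ Φ : Matrix (Fin (2 * m)) (Fin (2 * m)) ℂ, (∀ p < 2 * m, ∀ v ∈ Hh p, v ᵥ* Φ = (p : ℂ) • v) ∧
        Bad β t0 C A Φ
    · obtain ⟨t0, hs, Fil0, H0, hFil0, hH0, Φ0, hΦ0, -⟩ := hne
      refine le_trans ?_ (le_trans (h1 C M q hC hq hM A κ hκ hA Φ0 T hT) ?_)
      · have h4 : {t : ℕ | t ≤ T ∧ (2 ≤ s ∧ ∃ Fil Hh : ℕ → Submodule ℂ (Fin (2 * m) → ℂ), (∀ p, m ≤ p → Fil p = Fl β s C p) ∧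
            Polarised Fil A Hh ∧ ∃ Φ : Matrix (Fin (2 * m)) (Fin (2 * m)) ℂ, (∀ p < 2 * m, ∀ v ∈ Hh p, v ᵥ* Φ = (p : ℂ) • v) ∧
            Bad β t C A Φ)} ⊆ {t : ℕ | t ≤ T ∧ Bad β t C A Φ0} := by
          rintro t ⟨ht, -, Fil, Hh, hFil, hHh, Φ, hΦ, hb⟩
          refine ⟨ht, ?_⟩
          rwa [op_uniq uni (by omega) hQ hs hC hκ hA hFil0 hH0 hFil hHh hΦ0 hΦ]
        exact_mod_cast Set.ncard_le_ncard h4 ((Set.finite_le_nat T).subset fun t ht => ht.1)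
      · refine mul_le_mul (by linarith) hle1 (Real.rpow_nonneg (Nat.cast_nonneg _) _) (by linarith)
    · have h4 : {t : ℕ | t ≤ T ∧ (2 ≤ s ∧ ∃ Fil Hh : ℕ → Submodule ℂ (Fin (2 * m) → ℂ), (∀ p, m ≤ p → Fil p = Fl β s C p) ∧
            Polarised Fil A Hh ∧ ∃ Φ : Matrix (Fin (2 * m)) (Fin (2 * m)) ℂ, (∀ p < 2 * m, ∀ v ∈ Hh p, v ᵥ* Φ = (p : ℂ) • v) ∧
            Bad β t C A Φ)} = ∅ := by
        ext t
        simp only [Set.mem_setOf_eq, Set.mem_empty_iff_false, iff_false]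
        rintro ⟨-, ht⟩
        exact hne ⟨t, ht⟩
      rw [h4, Set.ncard_empty, Nat.cast_zero]
      exact mul_nonneg (by linarith) hpos) (by
    have h4 : {t : ℕ | t ≤ T ∧ (t ≤ 1 ∨ Bad β t C A ΨW)} ⊆ (({0, 1} : Finset ℕ) : Set ℕ) ∪ {t : ℕ | t ≤ T ∧ Bad β t C A ΨW} := by
      rintro t ⟨ht, h5 | h5⟩
      · left
        rw [Finset.mem_coe, Finset.mem_insert, Finset.mem_singleton]
        omega
      · exact Or.inr ⟨ht, h5⟩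
    have h5 := Set.ncard_le_ncard h4 ((Finset.finite_toSet _).union ((Set.finite_le_nat T).subset fun t ht => ht.1))
    have h6 := le_trans h5 (Set.ncard_union_le _ _)
    rw [Set.ncard_coe_finset] at h6
    have h7 : ({0, 1} : Finset ℕ).card = 2 := rfl
    rw [h7] at h6
    have h8 : ({t : ℕ | t ≤ T ∧ (t ≤ 1 ∨ Bad β t C A ΨW)}.ncard : ℝ) ≤ 2 + ({t : ℕ | t ≤ T ∧ Bad β t C A ΨW}.ncard : ℝ) := by
      exact_mod_cast h6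
    have h9 := h2 C M q hC hq hM A κ hκ hA ΨW T hT
    have h10 : K2 * (T : ℝ) ^ (1 - δ2) ≤ K2 * (T : ℝ) ^ (1 - min δ1 δ2) := mul_le_mul_of_nonneg_left hle2 hK2
    have h11 : 0 ≤ K1 * (T : ℝ) ^ (1 - min δ1 δ2) := mul_nonneg hK1 hpos
    nlinarith [h8, h9, h10, h11, hone])
  refine le_trans ?_ h3
  have h4 : {τ : Fin k → ℕ | (∀ i, τ i ≤ T) ∧ ∃ Fil Hh : Fin k → ℕ → Submodule ℂ (Fin (2 * m) → ℂ),
        (∀ i p, m ≤ p → Fil i p = Fl β (τ i) C p) ∧ (∀ i, Polarised (Fil i) A (Hh i)) ∧ ¬ (LieProp A Hh U ∧ ∀ i, 2 ≤ τ i)} ⊆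
      {τ : Fin k → ℕ | (∀ i, τ i ≤ T) ∧ ((∃ i j, i ≠ j ∧ (2 ≤ τ j ∧ ∃ Fil Hh : ℕ → Submodule ℂ (Fin (2 * m) → ℂ),
        (∀ p, m ≤ p → Fil p = Fl β (τ j) C p) ∧ Polarised Fil A Hh ∧ ∃ Φ : Matrix (Fin (2 * m)) (Fin (2 * m)) ℂ,
        (∀ p < 2 * m, ∀ v ∈ Hh p, v ᵥ* Φ = (p : ℂ) • v) ∧ Bad β (τ i) C A Φ)) ∨ ∃ i, (τ i ≤ 1 ∨ Bad β (τ i) C A ΨW))} := by
    rintro τ ⟨hτ, Fil, Hh, hFil, hHh, hn⟩
    refine ⟨hτ, ?_⟩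
    by_contra hcon
    rw [not_or] at hcon
    obtain ⟨hc1, hc2⟩ := hcon
    push_neg at hc2
    have h2τ : ∀ i, 2 ≤ τ i := fun i => by
      have := (hc2 i).1
      omega
    refine hn ⟨lprop_of_good rb hm hQ h2τ hC hκ hA hFil hHh hU ?_ ?_, h2τ⟩
    · intro i j hij Φ hΦ hb
      exact hc1 ⟨i, j, hij, h2τ j, Fil j, Hh j, hFil j, hHh j, Φ, hΦ, hb⟩
    · intro i ΦW hΦW hb
      rw [W_uniq hU hΦW hΨW] at hb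
      exact (hc2 i).2 hb
  have h5 : {τ : Fin k → ℕ | (∀ i, τ i ≤ T) ∧ ((∃ i j, i ≠ j ∧ (2 ≤ τ j ∧ ∃ Fil Hh : ℕ → Submodule ℂ (Fin (2 * m) → ℂ),
        (∀ p, m ≤ p → Fil p = Fl β (τ j) C p) ∧ Polarised Fil A Hh ∧ ∃ Φ : Matrix (Fin (2 * m)) (Fin (2 * m)) ℂ,
        (∀ p < 2 * m, ∀ v ∈ Hh p, v ᵥ* Φ = (p : ℂ) • v) ∧ Bad β (τ i) C A Φ)) ∨ ∃ i, (τ i ≤ 1 ∨ Bad β (τ i) C A ΨW))}.Finite :=
    (Set.finite_Iic (fun _ => T : Fin k → ℕ)).subset fun τ hτ => fun i => hτ.1 i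
  exact_mod_cast Set.ncard_le_ncard h4 h5

end

end Pool.Agent.T6.H21.GH
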