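import Pool.Agent.T6.H21.GH.Val
import Pool.Agent.Y658.MT.Op
import Pool.Agent.Y113.MT.TupT

/-!
# The generalized Hodge conjecture for products (helper21)
-/

set_option autoImplicit false

open Matrix

namespace Pool.Agent.T6.H21.GH

open Pool.Agent.Y113.MT (cq)

/-- the Lie algebra property -/
def LieProp {m k v : ℕ} (A : Matrix (Fin (2 * m)) (Fin (2 * m)) ℚ) (V : Fin k → ℕ → Submodule ℂ (Fin (2 * m) → ℂ))
    (U : ℤ → Submodule ℂ (Fin v → ℂ)) : Prop :=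
  ∀ (Φ : Fin k → Matrix (Fin (2 * m)) (Fin (2 * m)) ℂ) (ΦW : Matrix (Fin v) (Fin v) ℂ),
  (∀ i, ∀ p < 2 * m, ∀ v ∈ V i p, v ᵥ* Φ i = (p : ℂ) • v) → (∀ p, ∀ z ∈ U p, z ᵥ* ΦW = (p : ℂ) • z) →
  ∀ 𝔪 : Submodule ℚ ((Fin k → Matrix (Fin (2 * m)) (Fin (2 * m)) ℚ) × Matrix (Fin v) (Fin v) ℚ),
  (∀ X ∈ 𝔪, ∀ Y ∈ 𝔪, ((fun i => X.1 i * Y.1 i - Y.1 i * X.1 i), X.2 * Y.2 - Y.2 * X.2) ∈ 𝔪) →
  (Φ, ΦW) ∈ Submodule.span ℂ ((fun X : (Fin k → Matrix (Fin (2 * m)) (Fin (2 * m)) ℚ) × Matrix (Fin v) (Fin v) ℚ =>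
    (fun i => cq (X.1 i), cq X.2)) '' (𝔪 : Set _)) →
  ∀ X : Fin k → Matrix (Fin (2 * m)) (Fin (2 * m)) ℚ, (∀ i, X i * A + A * (X i)ᵀ = 0) → (X, 0) ∈ 𝔪

section
variable {m r k s v : ℕ}

/-- a tensor as a sum of product tensors -/
theorem ten_sum {n : ℕ} (t : Ten ℚ r s n v) :
    t = ∑ J : Fin r → Fin s ⊕ Fin n, (fun J' b => (∏ x, (Pi.single (J x) (1 : ℚ) : Fin s ⊕ Fin n → ℚ) (J' x)) * t J b) := by
  classical
  funext J' b
  rw [Finset.sum_apply, Finset.sum_apply, Finset.sum_eq_single J']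
  · have h1 : ∏ x, (Pi.single (J' x) (1 : ℚ) : Fin s ⊕ Fin n → ℚ) (J' x) = 1 :=
      Finset.prod_eq_one fun x _ => Pi.single_eq_same _ _
    rw [h1, one_mul]
  · intro J _ hJ
    obtain ⟨x, hx⟩ := Function.ne_iff.1 hJ
    have h1 : ∏ x, (Pi.single (J x) (1 : ℚ) : Fin s ⊕ Fin n → ℚ) (J' x) = 0 :=
      Finset.prod_eq_zero (Finset.mem_univ x) (Pi.single_eq_of_ne (Ne.symm hx) _)
    rw [h1, zero_mul]
  · intro hc
    exact absurd (Finset.mem_univ _) hc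

theorem deg_sum {n : ℕ} (ν : Fin s → ℕ) (J : Fin r → Fin s ⊕ Fin n) (a : ℕ) :
    ∑ x, Sum.elim (fun e => 2 * ν e) (fun _ => a) (J x) = 2 * nuJ ν J + (VS J).card * a := by
  classical
  unfold nuJ VS
  rw [Finset.card_filter, Finset.mul_sum, Finset.sum_mul, ← Finset.sum_add_distrib]
  refine Finset.sum_congr rfl fun x _ => ?_
  rcases J x with e | l
  · rw [if_neg (by rintro ⟨l, hl⟩; cases hl)]
    simp
  · rw [if_pos ⟨l, rfl⟩]
    simp

/-- **The generalized Hodge conjecture for the product.** -/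
theorem ghc (hm : 1 ≤ m) {A : Matrix (Fin (2 * m)) (Fin (2 * m)) ℚ} (hA : Aᵀ = -A) (hdet : A.det ≠ 0)
    {V : Fin k → ℕ → Submodule ℂ (Fin (2 * m) → ℂ)} {B : Fin k → Matrix (Fin (2 * m)) (Fin (2 * m)) ℂ}
    (hB : ∀ i, (B i).det ≠ 0)
    (hHB : ∀ i, ∀ p < 2 * m, ∀ v ∈ V i p, ∀ l : Fin (2 * m), (l : ℕ) ≠ 2 * m - 1 - p → (v ᵥ* (B i)⁻¹) l = 0)
    {U : ℤ → Submodule ℂ (Fin v → ℂ)} (hU : DirectSum.IsInternal U) (hlie : LieProp A V U)
    {dg : Fin v → ℕ} {Nz : ℕ → Submodule ℚ (Fin v → ℚ)} (hZ : GHCZ dg U Nz) {ν : Fin s → ℕ} {c : Fin r → Fin k} (i j : ℕ)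
    (S : Submodule ℚ (Ten ℚ r s (2 * m) v))
    (hdeg : ∀ t ∈ S, ∀ J b, t J b ≠ 0 → ∑ x, Sum.elim (fun e => 2 * ν e) (fun _ => 2 * m - 1) (J x) + dg b = i)
    (hone : ∀ t ∈ S, ∀ J b, t J b ≠ 0 → One c J)
    (htype : ∀ t ∈ S, cx t ∈ Submodule.span ℂ {y | y ∈ cW S ∧ ∃ P : ℤ, (j : ℤ) ≤ P ∧ P ≤ (i : ℤ) - j ∧ y ∈ Types ν V c U P}) :
    S ≤ coniv (2 * m) ν Nz j := by
  classical
  obtain ⟨ΦW, hΦW⟩ := Pool.Agent.Y658.MT.op v U hU
  have hΦ : ∀ i, ∀ p < 2 * m, ∀ v ∈ V i p, v ᵥ* HO (B i) = (p : ℂ) • v := fun i =>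
    Pool.Agent.Y113.MT.op_of_adapted (hB i) (hHB i)
  have hpart : ∀ t ∈ S, Part c t := by
    intro t ht J hJ
    by_contra h
    obtain ⟨b, hb⟩ := Function.ne_iff.1 h
    exact hJ (hone t ht J b hb)
  set T : Module.End ℂ (Ten ℂ r s (2 * m) v) := Tot c ν (fun i => HO (B i)) ΦW 1 with hT
  have hspan0 : ∀ t ∈ S, cx t ∈ Submodule.span ℂ {y | y ∈ cW S ∧ ∃ P : ℤ, (j : ℤ) ≤ P ∧ P ≤ (i : ℤ) - j ∧ T y = (P : ℂ) • y} := by
    intro t ht
    refine Submodule.span_mono ?_ (htype t ht)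
    rintro y ⟨hy, P, h1, h2, h3⟩
    exact ⟨hy, P, h1, h2, types_eig hΦ hΦW h3⟩
  have hTW : ∀ t ∈ S, T (cx t) ∈ cW S := by
    intro t ht
    refine (Submodule.span_le.2 ?_ : _ ≤ (cW S).comap T) (hspan0 t ht)
    rintro y ⟨hy, P, -, -, h3⟩
    show T y ∈ cW S
    rw [h3]
    exact (cW S).smul_mem _ hy
  have hsp := hlie _ ΦW hΦ hΦW (LW c ν S) (LW_br c ν S) (LW_mem hTW)
  have hst : ∀ i Z, ∀ f ∈ cW S, RC c i Z f ∈ cW S := fun i => stabC fun Z => stab hA hdet hpart hsp i Z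
  have hW := part_cW hpart
  -- all classes are combinations of pure classes
  have hpure : ∀ t ∈ S, cx t ∈ Submodule.span ℂ {g | g ∈ cW S ∧ (∃ P : ℤ, (j : ℤ) ≤ P ∧ P ≤ (i : ℤ) - j ∧ T g = (P : ℂ) • g) ∧
      Pure c B Finset.univ g} := by
    intro t ht
    refine (Submodule.span_le.2 ?_ : _ ≤ Submodule.span ℂ _) (hspan0 t ht)
    rintro y ⟨hy, P, h1, h2, h3⟩
    refine Submodule.span_mono ?_ (pure_span hB hW hst Finset.univ hy h3)
    rintro g ⟨hg, hgl, hgp⟩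
    exact ⟨hg, ⟨P, h1, h2, hgl⟩, hgp⟩
  set L : Set ℂ := {μ | ∃ P : ℤ, (j : ℤ) ≤ P ∧ P ≤ (i : ℤ) - j ∧ μ = P} with hL
  have hspan : ∀ f ∈ cW S, f ∈ Submodule.span ℂ {g | ∃ μ ∈ L, T g = μ • g} := by
    intro f hf
    refine (Submodule.span_le.2 ?_ : cW S ≤ _) hf
    rintro _ ⟨t, ht, rfl⟩
    refine Submodule.span_mono ?_ (hspan0 t ht)
    rintro y ⟨-, P, h1, h2, h3⟩
    exact ⟨P, ⟨P, h1, h2, rfl⟩, h3⟩
  -- the values
  have key : ∀ t ∈ S, ∀ J, t J ∈ Nz (j - nuJ ν J) := by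
    intro t ht J
    by_cases hjn : j ≤ nuJ ν J
    · rw [Nat.sub_eq_zero_of_le hjn, hZ.1]
      exact Submodule.mem_top
    by_cases ht0 : t J = 0
    · rw [ht0]
      exact Submodule.zero_mem _
    obtain ⟨b0, hb0⟩ := Function.ne_iff.1 ht0
    have hd0 := hdeg t ht J b0 hb0
    set D := ∑ x, Sum.elim (fun e => 2 * ν e) (fun _ => 2 * m - 1) (J x) with hD
    have hD' : D = 2 * nuJ ν J + (VS J).card * (2 * m - 1) := deg_sum ν J (2 * m - 1)
    refine hZ.2 (i - D) (j - nuJ ν J) (S.map (LinearMap.proj J : Ten ℚ r s (2 * m) v →ₗ[ℚ] (Fin v → ℚ))) ?_ ?_ ⟨t, ht, rfl⟩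
    · rintro _ ⟨t', ht', rfl⟩ b hb
      have h1 := hdeg t' ht' J b hb
      omega
    · rintro _ ⟨t', ht', rfl⟩
      have h1 := Submodule.mem_map_of_mem (f := (LinearMap.proj J : Ten ℂ r s (2 * m) v →ₗ[ℂ] (Fin v → ℂ))) (hpure t' ht')
      rw [Submodule.map_span] at h1
      refine (Submodule.span_le.2 ?_ : _ ≤ Submodule.span ℂ _) h1
      rintro _ ⟨g, ⟨hg, ⟨P, hP1, hP2, hgl⟩, hgp⟩, rfl⟩
      show g J ∈ Submodule.span ℂ _
      by_cases hgJ : g J = 0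
      · rw [hgJ]
        exact Submodule.zero_mem _
      have hg0 : g ≠ 0 := fun h => hgJ (by rw [h]; rfl)
      have hmem : g J ∈ Submodule.span ℂ (cz '' ((S.map (LinearMap.proj J : Ten ℚ r s (2 * m) v →ₗ[ℚ] (Fin v → ℚ)) :
          Submodule ℚ (Fin v → ℚ)) : Set (Fin v → ℚ))) := by
        have h2 := Submodule.mem_map_of_mem (f := (LinearMap.proj J : Ten ℂ r s (2 * m) v →ₗ[ℂ] (Fin v → ℂ))) hg
        unfold cW at h2
        rw [Submodule.map_span] at h2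
        refine Submodule.span_mono ?_ h2
        rintro _ ⟨_, ⟨t'', ht'', rfl⟩, rfl⟩
        exact ⟨t'' J, ⟨t'', ht'', rfl⟩, rfl⟩
      let I : Finset (Fin k) := Finset.univ.filter fun i => ¬ ∀ Z, RC c i Z g = 0
      have hIp : ∀ i ∈ I, ∃ p, RC c i (SH (B i) p p) g = g := fun i hi =>
        (hgp i (Finset.mem_univ i)).resolve_left (Finset.mem_filter.1 hi).2
      have hI0 : ∀ i ∉ I, ∀ Z, RC c i Z g = 0 := by
        intro i hi
        by_contra hcon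
        exact hi (Finset.mem_filter.2 ⟨Finset.mem_univ i, hcon⟩)
      let p : Fin k → Fin (2 * m) := fun i => if hi : i ∈ I then (hIp i hi).choose else ⟨0, by omega⟩
      have hp : ∀ i ∈ I, RC c i (SH (B i) (p i) (p i)) g = g := by
        intro i hi
        have h2 := (hIp i hi).choose_spec
        have h3 : p i = (hIp i hi).choose := dif_pos hi
        rw [h3]
        exact h2
      obtain ⟨hcard, hval⟩ := pure_val (ν := ν) hB hW hg hgl hp hI0 hgJ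
      -- the range
      have hrange : ∀ q0 : Fin (2 * m), ∃ P' : ℤ, (j : ℤ) ≤ P' ∧ P' ≤ (i : ℤ) - j ∧
          (P : ℤ) + ∑ i ∈ I, (((2 * m - 1 - (q0 : ℕ) : ℕ) : ℤ) - ((2 * m - 1 - (p i : ℕ) : ℕ) : ℤ)) = P' := by
        intro q0
        obtain ⟨g', hg', hg'0, hgl', -⟩ := shift_all hB hW hst hg hg0 hgl I p hp q0 I (Finset.Subset.refl _)
        obtain ⟨P', h2, h3, h4⟩ := eig_range hspan hg' hg'0 hgl'
        refine ⟨P', h2, h3, ?_⟩
        have h5 : (((P : ℤ) + ∑ i ∈ I, (((2 * m - 1 - (q0 : ℕ) : ℕ) : ℤ) - ((2 * m - 1 - (p i : ℕ) : ℕ) : ℤ)) : ℤ) : ℂ) =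
            ((P' : ℤ) : ℂ) := by
          rw [← h4]
          push_cast
          rfl
        exact_mod_cast h5
      obtain ⟨P1, h11, h12, h13⟩ := hrange ⟨2 * m - 1, by omega⟩
      obtain ⟨P2, h21, h22, h23⟩ := hrange ⟨0, by omega⟩
      set sgt : ℤ := ∑ i ∈ I, ((2 * m - 1 - (p i : ℕ) : ℕ) : ℤ) with hsgt
      have e1 : P1 = P - sgt := by
        rw [← h13, hsgt, Finset.sum_sub_distrib]
        have : ∑ i ∈ I, (((2 * m - 1 - ((⟨2 * m - 1, by omega⟩ : Fin (2 * m)) : ℕ) : ℕ) : ℤ)) = 0 :=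
          Finset.sum_eq_zero fun i _ => by simp
        rw [this]
        ring
      have e2 : P2 = P - sgt + (I.card : ℤ) * ((2 * m - 1 : ℕ) : ℤ) := by
        rw [← h23, hsgt, Finset.sum_sub_distrib]
        have : ∑ i ∈ I, (((2 * m - 1 - ((⟨0, by omega⟩ : Fin (2 * m)) : ℕ) : ℕ) : ℤ)) = (I.card : ℤ) * ((2 * m - 1 : ℕ) : ℤ) := by
          rw [Finset.sum_const, nsmul_eq_mul]
          rfl
        rw [this]
        ring
      refine Submodule.subset_span ⟨hmem, P - nuJ ν J - sgt, ?_, ?_, ?_⟩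
      · rw [Nat.cast_sub (by omega)]
        linarith
      · have h5 : (I.card : ℤ) * ((2 * m - 1 : ℕ) : ℤ) = ((VS J).card * (2 * m - 1) : ℕ) := by
          rw [hcard]
          push_cast
          rfl
        have h6 : (i : ℤ) = D + dg b0 := by
          rw [← hd0]
          push_cast
          rfl
        have h7 : (D : ℤ) = 2 * nuJ ν J + ((VS J).card * (2 * m - 1) : ℕ) := by
          rw [hD']
          push_cast
          rfl
        have h8 : ((i - D : ℕ) : ℤ) = (i : ℤ) - D := Nat.cast_sub (by omega)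
        have h9 : ((j - nuJ ν J : ℕ) : ℤ) = (j : ℤ) - nuJ ν J := Nat.cast_sub (by omega)
        rw [h8, h9]
        rw [e2, h5] at h22
        linarith
      · refine mem_U hU hΦW ?_
        rw [hval]
        congr 1
        rw [hsgt]
        push_cast
        rfl
  intro t ht
  rw [ten_sum t]
  refine Submodule.sum_mem _ fun J _ => Submodule.subset_span ⟨fun x => Sum.elim ν (fun _ => 0) (J x),
    fun x => Pi.single (J x) 1, j - nuJ ν J, t J, fun x => ⟨fun e he => ?_, fun l hl => ?_⟩, key t ht J, ?_, rfl⟩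
  · have h1 : Sum.inl e = J x := by
      by_contra h
      exact he (Pi.single_eq_of_ne h _)
    show Sum.elim ν (fun _ => 0) (J x) ≤ ν e
    rw [← h1]
    exact le_rfl
  · have h1 : Sum.inr l = J x := by
      by_contra h
      exact hl (Pi.single_eq_of_ne h _)
    show Sum.elim ν (fun _ => 0) (J x) = 0
    rw [← h1]
    rfl
  · show j ≤ nuJ ν J + (j - nuJ ν J)
    omega

end

end Pool.Agent.T6.H21.GH
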