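import Pool.Agent.T6.H21.GH.Op
import Pool.Agent.Y261.MT.DES

/-!
# The Lie algebra of a sub-Hodge structure (helper21)
-/

set_option autoImplicit false

open Matrix

namespace Pool.Agent.T6.H21.GH

open Pool.Agent.Y113.MT (cq)

section
variable {r k s n v : ℕ}

/-- the complexification of a rational tensor -/
def cx (t : Ten ℚ r s n v) : Ten ℂ r s n v := fun J b => ((t J b : ℚ) : ℂ)

/-- the complexification of a rational subspace -/
def cW (W : Submodule ℚ (Ten ℚ r s n v)) : Submodule ℂ (Ten ℂ r s n v) := Submodule.span ℂ (cx '' (W : Set _))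

theorem cx_mem {W : Submodule ℚ (Ten ℚ r s n v)} {t : Ten ℚ r s n v} (h : t ∈ W) : cx t ∈ cW W :=
  Submodule.subset_span ⟨t, h, rfl⟩

theorem cx_R (x : Fin r) (X : Matrix (Fin s ⊕ Fin n) (Fin s ⊕ Fin n) ℚ) (t : Ten ℚ r s n v) :
    R x (X.map fun a : ℚ => (a : ℂ)) (cx t) = cx (R x X t) := by
  funext J b
  rw [R_apply]
  unfold cx
  rw [R_apply]
  push_cast
  rfl

theorem cx_add (t t' : Ten ℚ r s n v) : cx (t + t') = cx t + cx t' := by
  funext J b
  show (((t J b + t' J b : ℚ)) : ℂ) = (t J b : ℂ) + (t' J b : ℂ)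
  push_cast
  rfl

theorem cx_smul (a : ℚ) (t : Ten ℚ r s n v) : cx (a • t) = (a : ℂ) • cx t := by
  funext J b
  show (((a * t J b : ℚ)) : ℂ) = (a : ℂ) * (t J b : ℂ)
  push_cast
  rfl

theorem cx_sum {ι : Type} (S : Finset ι) (t : ι → Ten ℚ r s n v) : cx (∑ i ∈ S, t i) = ∑ i ∈ S, cx (t i) := by
  classical
  induction S using Finset.induction_on with
  | empty =>
    rw [Finset.sum_empty, Finset.sum_empty]
    funext J b
    show (((0 : ℚ)) : ℂ) = 0
    exact Rat.cast_zero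
  | insert a S ha ih => rw [Finset.sum_insert ha, Finset.sum_insert ha, cx_add, ih]

theorem bl_map (ν : Fin s → ℕ) (X : Matrix (Fin n) (Fin n) ℚ) (μ : ℚ) :
    (bl ν X μ).map (fun a : ℚ => (a : ℂ)) = bl ν (cq X) (μ : ℂ) := by
  ext i j
  rcases i with i | i <;> rcases j with j | j
  · show (((μ • diagonal fun e => ((ν e : ℕ) : ℚ)) i j : ℚ) : ℂ) = (((μ : ℂ) • diagonal fun e => ((ν e : ℕ) : ℂ)) i j : ℂ)
    rw [Matrix.smul_apply, Matrix.smul_apply, diagonal_apply, diagonal_apply]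
    split_ifs
    · simp
    · simp
  · show (((0 : ℚ)) : ℂ) = 0
    exact Rat.cast_zero
  · show (((0 : ℚ)) : ℂ) = 0
    exact Rat.cast_zero
  · rfl

theorem cx_Tot (c : Fin r → Fin k) (ν : Fin s → ℕ) (X : Fin k → Matrix (Fin n) (Fin n) ℚ) (Y : Matrix (Fin v) (Fin v) ℚ)
    (μ : ℚ) (t : Ten ℚ r s n v) :
    Tot c ν (fun i => cq (X i)) (cq Y) (μ : ℂ) (cx t) = cx (Tot c ν X Y μ t) := by
  unfold Tot
  rw [LinearMap.add_apply, LinearMap.add_apply, LinearMap.sum_apply, LinearMap.sum_apply, cx_add, cx_sum]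
  congr 1
  · refine Finset.sum_congr rfl fun x _ => ?_
    rw [← cx_R, bl_map]
  · funext J b
    show ∑ b', ((t J b' : ℚ) : ℂ) * ((Y b' b : ℚ) : ℂ) = (((∑ b', t J b' * Y b' b : ℚ)) : ℂ)
    push_cast
    rfl

/-- the index set of the linear system -/
abbrev Ix (k n v : ℕ) : Type := (Fin k × Fin n × Fin n) ⊕ ((Fin v × Fin v) ⊕ Unit)

section
variable {F : Type} [Field F]

/-- the matrices with the given entries -/
def dX (z : Ix k n v → F) : Fin k → Matrix (Fin n) (Fin n) F := fun i => Matrix.of fun p q => z (Sum.inl (i, p, q))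

/-- the matrix with the given entries -/
def dY (z : Ix k n v → F) : Matrix (Fin v) (Fin v) F := Matrix.of fun p q => z (Sum.inr (Sum.inl (p, q)))

theorem bl_add (ν : Fin s → ℕ) (X X' : Matrix (Fin n) (Fin n) F) (μ μ' : F) :
    bl ν (X + X') (μ + μ') = bl ν X μ + bl ν X' μ' := by
  unfold bl
  rw [fromBlocks_add, add_smul]
  simp

theorem bl_smul (ν : Fin s → ℕ) (X : Matrix (Fin n) (Fin n) F) (μ a : F) :
    bl ν (a • X) (a * μ) = a • bl ν X μ := by
  unfold bl
  rw [fromBlocks_smul, mul_smul]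
  simp

/-- the total operator is linear in the matrices -/
def TotI (c : Fin r → Fin k) (ν : Fin s → ℕ) (t : Ten F r s n v) : (Ix k n v → F) →ₗ[F] Ten F r s n v where
  toFun z := Tot c ν (dX z) (dY z) (z (Sum.inr (Sum.inr ()))) t
  map_add' z z' := by
    unfold Tot
    rw [LinearMap.add_apply, LinearMap.add_apply, LinearMap.add_apply, LinearMap.sum_apply, LinearMap.sum_apply,
      LinearMap.sum_apply]
    have h1 : ∀ x : Fin r, (R x (bl ν (dX (z + z') (c x)) ((z + z') (Sum.inr (Sum.inr ())))) : Module.End F (Ten F r s n v)) t =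
        R x (bl ν (dX z (c x)) (z (Sum.inr (Sum.inr ())))) t + R x (bl ν (dX z' (c x)) (z' (Sum.inr (Sum.inr ())))) t := by
      intro x
      have h2 : dX (z + z') (c x) = dX z (c x) + dX z' (c x) := rfl
      rw [h2, Pi.add_apply, bl_add, R_add, LinearMap.add_apply]
    rw [Finset.sum_congr rfl fun x _ => h1 x, Finset.sum_add_distrib]
    have h3 : (ZZ (dY (z + z')) : Module.End F (Ten F r s n v)) t = ZZ (dY z) t + ZZ (dY z') t := by
      funext J
      exact vecMul_add (dY z) (dY z') (t J)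
    rw [h3]
    abel
  map_smul' a z := by
    unfold Tot
    rw [LinearMap.add_apply, LinearMap.add_apply, LinearMap.sum_apply, LinearMap.sum_apply]
    have h1 : ∀ x : Fin r, (R x (bl ν (dX (a • z) (c x)) ((a • z) (Sum.inr (Sum.inr ())))) : Module.End F (Ten F r s n v)) t =
        a • R x (bl ν (dX z (c x)) (z (Sum.inr (Sum.inr ())))) t := by
      intro x
      have h2 : dX (a • z) (c x) = a • dX z (c x) := rfl
      rw [h2, Pi.smul_apply, smul_eq_mul, bl_smul, R_smul, LinearMap.smul_apply]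
    rw [Finset.sum_congr rfl fun x _ => h1 x, ← Finset.smul_sum]
    have h3 : (ZZ (dY (a • z)) : Module.End F (Ten F r s n v)) t = a • ZZ (dY z) t := by
      funext J
      exact vecMul_smul (t J) a (dY z)
    rw [h3, ← smul_add]
    rfl

end

theorem cx_TotI (c : Fin r → Fin k) (ν : Fin s → ℕ) (z : Ix k n v → ℚ) (t : Ten ℚ r s n v) :
    TotI c ν (cx t) (fun i => ((z i : ℚ) : ℂ)) = cx (TotI c ν t z) :=
  cx_Tot c ν (dX z) (dY z) _ t

/-- a rational subspace is the kernel of an operator -/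
theorem exists_cut (W : Submodule ℚ (Ten ℚ r s n v)) : ∃ (π : Ten ℚ r s n v →ₗ[ℚ] Ten ℚ r s n v)
    (πC : Ten ℂ r s n v →ₗ[ℂ] Ten ℂ r s n v), (∀ t, t ∈ W ↔ π t = 0) ∧ ∀ t, πC (cx t) = cx (π t) := by
  classical
  obtain ⟨W', hW'⟩ := Submodule.exists_isCompl W
  let e := Submodule.quotientEquivOfIsCompl W W' hW'
  let π : Ten ℚ r s n v →ₗ[ℚ] Ten ℚ r s n v := W'.subtype ∘ₗ e.toLinearMap ∘ₗ W.mkQ
  let πC : Ten ℂ r s n v →ₗ[ℂ] Ten ℂ r s n v :=
    { toFun := fun f => ∑ J, ∑ b, f J b • cx (π (Pi.single J (Pi.single b 1)))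
      map_add' := fun f g => by
        rw [← Finset.sum_add_distrib]
        refine Finset.sum_congr rfl fun J _ => ?_
        rw [← Finset.sum_add_distrib]
        exact Finset.sum_congr rfl fun b _ => add_smul _ _ _
      map_smul' := fun a f => by
        rw [Finset.smul_sum]
        refine Finset.sum_congr rfl fun J _ => ?_
        rw [Finset.smul_sum]
        exact Finset.sum_congr rfl fun b _ => mul_smul _ _ _ }
  refine ⟨π, πC, fun t => ?_, fun t => ?_⟩
  · constructor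
    · intro h
      show (e (W.mkQ t) : Ten ℚ r s n v) = 0
      rw [Submodule.mkQ_apply, (Submodule.Quotient.mk_eq_zero W).2 h, map_zero]
      rfl
    · intro h
      have h1 : e (W.mkQ t) = 0 := Subtype.ext h
      have h2 : W.mkQ t = 0 := by
        rw [← map_zero e] at h1
        exact e.injective h1
      rwa [Submodule.mkQ_apply, Submodule.Quotient.mk_eq_zero] at h2
  · have h1 : t = ∑ J, ∑ b, t J b • (Pi.single J (Pi.single b 1) : Ten ℚ r s n v) := by
      funext J b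
      rw [Finset.sum_apply, Finset.sum_apply, Finset.sum_eq_single J]
      · rw [Finset.sum_apply, Finset.sum_apply, Finset.sum_eq_single b]
        · simp
        · intro b' _ hb'
          simp [Pi.single_eq_of_ne (Ne.symm hb')]
        · intro h
          exact absurd (Finset.mem_univ _) h
      · intro J' _ hJ'
        rw [Finset.sum_apply, Finset.sum_apply]
        refine Finset.sum_eq_zero fun b' _ => ?_
        simp [Pi.single_eq_of_ne (Ne.symm hJ')]
      · intro h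
        exact absurd (Finset.mem_univ _) h
    conv_rhs => rw [h1]
    rw [map_sum, cx_sum]
    show (∑ J, ∑ b, cx t J b • cx (π (Pi.single J (Pi.single b 1)))) = _
    refine Finset.sum_congr rfl fun J _ => ?_
    rw [map_sum, cx_sum]
    refine Finset.sum_congr rfl fun b _ => ?_
    rw [map_smul, cx_smul]
    rfl

theorem cut_cW {W : Submodule ℚ (Ten ℚ r s n v)} {π : Ten ℚ r s n v →ₗ[ℚ] Ten ℚ r s n v}
    {πC : Ten ℂ r s n v →ₗ[ℂ] Ten ℂ r s n v} (h1 : ∀ t, t ∈ W ↔ π t = 0) (h2 : ∀ t, πC (cx t) = cx (π t))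
    {f : Ten ℂ r s n v} (hf : f ∈ cW W) : πC f = 0 := by
  have h3 : cW W ≤ LinearMap.ker πC := by
    refine Submodule.span_le.2 ?_
    rintro _ ⟨t, ht, rfl⟩
    show πC (cx t) = 0
    rw [h2, (h1 t).1 ht]
    funext J b
    show (((0 : ℚ)) : ℂ) = 0
    exact Rat.cast_zero
  exact h3 hf

/-- the Lie algebra of the pairs which preserve `W` up to the operator of the codimensions -/
def LW (c : Fin r → Fin k) (ν : Fin s → ℕ) (W : Submodule ℚ (Ten ℚ r s n v)) :
    Submodule ℚ ((Fin k → Matrix (Fin n) (Fin n) ℚ) × Matrix (Fin v) (Fin v) ℚ) where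
  carrier := {X | ∃ μ : ℚ, ∀ t ∈ W, Tot c ν X.1 X.2 μ t ∈ W}
  add_mem' := by
    rintro X X' ⟨μ, h⟩ ⟨μ', h'⟩
    refine ⟨μ + μ', fun t ht => ?_⟩
    have h1 := (TotI c ν t).map_add (Sum.elim (fun x : Fin k × Fin n × Fin n => X.1 x.1 x.2.1 x.2.2)
      (Sum.elim (fun x : Fin v × Fin v => X.2 x.1 x.2) fun _ : Unit => μ)) (Sum.elim (fun x : Fin k × Fin n × Fin n => X'.1 x.1 x.2.1 x.2.2)
      (Sum.elim (fun x : Fin v × Fin v => X'.2 x.1 x.2) fun _ : Unit => μ'))
    exact (show Tot c ν (X + X').1 (X + X').2 (μ + μ') t = Tot c ν X.1 X.2 μ t + Tot c ν X'.1 X'.2 μ' t from h1) ▸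
      W.add_mem (h t ht) (h' t ht)
  zero_mem' := by
    refine ⟨0, fun t ht => ?_⟩
    have h1 := (TotI c ν t).map_zero (M := Ix k n v → ℚ)
    exact (show Tot c ν (0 : (Fin k → Matrix (Fin n) (Fin n) ℚ) × Matrix (Fin v) (Fin v) ℚ).1
      (0 : (Fin k → Matrix (Fin n) (Fin n) ℚ) × Matrix (Fin v) (Fin v) ℚ).2 0 t = 0 from h1) ▸ W.zero_mem
  smul_mem' := by
    rintro a X ⟨μ, h⟩
    refine ⟨a * μ, fun t ht => ?_⟩
    have h1 := (TotI c ν t).map_smul a (Sum.elim (fun x : Fin k × Fin n × Fin n => X.1 x.1 x.2.1 x.2.2)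
      (Sum.elim (fun x : Fin v × Fin v => X.2 x.1 x.2) fun _ : Unit => μ))
    exact (show Tot c ν (a • X).1 (a • X).2 (a * μ) t = a • Tot c ν X.1 X.2 μ t from h1) ▸ W.smul_mem a (h t ht)

theorem LW_br (c : Fin r → Fin k) (ν : Fin s → ℕ) (W : Submodule ℚ (Ten ℚ r s n v)) :
    ∀ X ∈ LW c ν W, ∀ Y ∈ LW c ν W, ((fun i => X.1 i * Y.1 i - Y.1 i * X.1 i), X.2 * Y.2 - Y.2 * X.2) ∈ LW c ν W := by
  rintro X ⟨μ, h⟩ Y ⟨μ', h'⟩
  refine ⟨0, fun t ht => ?_⟩
  show Tot c ν (fun i => X.1 i * Y.1 i - Y.1 i * X.1 i) (X.2 * Y.2 - Y.2 * X.2) 0 t ∈ W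
  rw [← Tot_br c ν X.1 Y.1 X.2 Y.2 μ μ']
  exact W.sub_mem (h' _ (h t ht)) (h _ (h' t ht))

/-- the Hodge operators lie in the complexification of the Lie algebra -/
theorem LW_mem {c : Fin r → Fin k} {ν : Fin s → ℕ} {W : Submodule ℚ (Ten ℚ r s n v)} {Φ : Fin k → Matrix (Fin n) (Fin n) ℂ}
    {ΦW : Matrix (Fin v) (Fin v) ℂ} (h : ∀ t ∈ W, Tot c ν Φ ΦW 1 (cx t) ∈ cW W) :
    (Φ, ΦW) ∈ Submodule.span ℂ ((fun X : (Fin k → Matrix (Fin n) (Fin n) ℚ) × Matrix (Fin v) (Fin v) ℚ =>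
      (fun i => cq (X.1 i), cq X.2)) '' (LW c ν W : Set _)) := by
  classical
  obtain ⟨π, πC, hπ, hπC⟩ := exists_cut W
  let x : Ix k n v → ℂ := Sum.elim (fun x : Fin k × Fin n × Fin n => Φ x.1 x.2.1 x.2.2)
    (Sum.elim (fun x : Fin v × Fin v => ΦW x.1 x.2) fun _ : Unit => 1)
  let l : (W × (Fin r → Fin s ⊕ Fin n) × Fin v) → Ix k n v → ℚ := fun y i =>
    π (TotI c ν (y.1 : Ten ℚ r s n v) (Pi.single i 1)) y.2.1 y.2.2
  have hdec : ∀ z : Ix k n v → ℚ, z = ∑ i, z i • (Pi.single i 1 : Ix k n v → ℚ) := by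
    intro z
    funext j
    rw [Finset.sum_apply, Finset.sum_eq_single j]
    · simp
    · intro i _ hi
      simp [Pi.single_eq_of_ne (Ne.symm hi)]
    · intro h
      exact absurd (Finset.mem_univ _) h
  have hdecC : ∀ z : Ix k n v → ℂ, z = ∑ i, z i • (fun j => (((Pi.single i 1 : Ix k n v → ℚ) j : ℚ) : ℂ)) := by
    intro z
    funext j
    rw [Finset.sum_apply, Finset.sum_eq_single j]
    · simp
    · intro i _ hi
      simp [Pi.single_eq_of_ne (Ne.symm hi)]
    · intro h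
      exact absurd (Finset.mem_univ _) h
  have h1 := Pool.Agent.Y261.MT.des (Ix k n v) (W × (Fin r → Fin s ⊕ Fin n) × Fin v) l x (by
    rintro ⟨⟨t, ht⟩, J, b⟩
    have h2 := cut_cW hπ hπC (h t ht)
    have h3 : Tot c ν Φ ΦW 1 (cx t) = TotI c ν (cx t) x := rfl
    rw [h3, hdecC x, map_sum, map_sum] at h2
    have h4 := congrFun (congrFun h2 J) b
    rw [Finset.sum_apply, Finset.sum_apply] at h4
    refine Eq.trans (Finset.sum_congr rfl fun i _ => ?_) h4
    rw [map_smul, map_smul, cx_TotI, hπC, mul_comm]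
    rfl)
  let dec : (Ix k n v → ℂ) →ₗ[ℂ] (Fin k → Matrix (Fin n) (Fin n) ℂ) × Matrix (Fin v) (Fin v) ℂ :=
    { toFun := fun z => (dX z, dY z)
      map_add' := fun _ _ => rfl
      map_smul' := fun _ _ => rfl }
  have h5 := Submodule.mem_map_of_mem (f := dec) h1
  rw [Submodule.map_span] at h5
  refine Submodule.span_mono ?_ h5
  rintro _ ⟨_, ⟨z, hz, rfl⟩, rfl⟩
  refine ⟨(dX z, dY z), ⟨z (Sum.inr (Sum.inr ())), fun t ht => ?_⟩, rfl⟩
  show TotI c ν t z ∈ W
  rw [hπ]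
  funext J b
  have h6 := hz (⟨t, ht⟩, J, b)
  rw [Pi.zero_apply, Pi.zero_apply]
  rw [← h6]
  conv_lhs => rw [hdec z]
  rw [map_sum, map_sum, Finset.sum_apply, Finset.sum_apply]
  refine Finset.sum_congr rfl fun i _ => ?_
  rw [map_smul, map_smul, mul_comm]
  rfl

end

end Pool.Agent.T6.H21.GH
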