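import Pool.Agent.T6.H21.GH.Stab

/-!
# Sub-Hodge structures of the cohomology of a product (helper21)
-/

set_option autoImplicit false

open Matrix

namespace Pool.Agent.T6.H21.GH

open Pool.Agent.Y113.MT (cq)

section
variable {n : ℕ}

/-- the Hodge operator of a Hodge structure with the adapted basis `B` -/
noncomputable def HO (B : Matrix (Fin n) (Fin n) ℂ) : Matrix (Fin n) (Fin n) ℂ :=
  B⁻¹ * Matrix.diagonal (fun i : Fin n => ((n - 1 - (i : ℕ) : ℕ) : ℂ)) * B

/-- the matrix units in the adapted basis -/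
noncomputable def SH (B : Matrix (Fin n) (Fin n) ℂ) (p q : Fin n) : Matrix (Fin n) (Fin n) ℂ := B⁻¹ * Matrix.single p q 1 * B

variable {B : Matrix (Fin n) (Fin n) ℂ}

theorem conj_mul (hB : B.det ≠ 0) (X Y : Matrix (Fin n) (Fin n) ℂ) : (B⁻¹ * X * B) * (B⁻¹ * Y * B) = B⁻¹ * (X * Y) * B := by
  have hu : IsUnit B.det := isUnit_iff_ne_zero.2 hB
  calc (B⁻¹ * X * B) * (B⁻¹ * Y * B) = B⁻¹ * X * (B * B⁻¹) * Y * B := by simp only [Matrix.mul_assoc]
    _ = B⁻¹ * (X * Y) * B := by rw [Matrix.mul_nonsing_inv _ hu, Matrix.mul_one]; simp only [Matrix.mul_assoc]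

theorem SH_mul (hB : B.det ≠ 0) (p q l : Fin n) : SH B p q * SH B q l = SH B p l := by
  unfold SH
  rw [conj_mul hB, Matrix.single_mul_single_same, mul_one]

theorem SH_HO (hB : B.det ≠ 0) (p q : Fin n) : SH B p q * HO B = ((n - 1 - (q : ℕ) : ℕ) : ℂ) • SH B p q := by
  unfold SH HO
  rw [conj_mul hB, ← Matrix.smul_mul, ← Matrix.mul_smul]
  congr 2
  ext a b
  rw [Matrix.mul_diagonal, Matrix.smul_apply, smul_eq_mul]
  by_cases h : p = a ∧ q = b
  · rw [h.2, mul_comm]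
  · rw [Matrix.single_apply, if_neg h, zero_mul, mul_zero]

theorem HO_SH (hB : B.det ≠ 0) (p q : Fin n) : HO B * SH B p q = ((n - 1 - (p : ℕ) : ℕ) : ℂ) • SH B p q := by
  unfold SH HO
  rw [conj_mul hB, ← Matrix.smul_mul, ← Matrix.mul_smul]
  congr 2
  ext a b
  rw [Matrix.diagonal_mul, Matrix.smul_apply, smul_eq_mul]
  by_cases h : p = a ∧ q = b
  · rw [h.1]
  · rw [Matrix.single_apply, if_neg h, mul_zero, mul_zero]

theorem SH_sum (hB : B.det ≠ 0) : ∑ p, SH B p p = 1 := by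
  have hu : IsUnit B.det := isUnit_iff_ne_zero.2 hB
  unfold SH
  rw [← Finset.sum_mul, ← Finset.mul_sum]
  have h1 : ∑ p : Fin n, Matrix.single p p (1 : ℂ) = 1 := by
    ext a b
    rw [Matrix.sum_apply]
    by_cases h : a = b
    · subst h
      rw [Finset.sum_eq_single a]
      · rw [Matrix.single_apply, if_pos ⟨rfl, rfl⟩, Matrix.one_apply_eq]
      · intro p _ hp
        rw [Matrix.single_apply, if_neg (fun hc => hp hc.1)]
      · intro hc
        exact absurd (Finset.mem_univ _) hc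
    · rw [Matrix.one_apply_ne h]
      refine Finset.sum_eq_zero fun p _ => ?_
      rw [Matrix.single_apply, if_neg (fun hc => h (hc.1.symm.trans hc.2))]
  rw [h1, Matrix.mul_one, Matrix.nonsing_inv_mul _ hu]

end

section
variable {r k s n v : ℕ} {c : Fin r → Fin k} {ν : Fin s → ℕ} {W : Submodule ℚ (Ten ℚ r s n v)}
  {B : Fin k → Matrix (Fin n) (Fin n) ℂ} {ΦW : Matrix (Fin v) (Fin v) ℂ}

/-- stability of the complexification -/
theorem stabC {i : Fin k} (h : ∀ Z : Matrix (Fin n) (Fin n) ℚ, ∀ t ∈ W, RC c i Z t ∈ W) (Z : Matrix (Fin n) (Fin n) ℂ) :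
    ∀ f ∈ cW W, RC c i Z f ∈ cW W := by
  intro f hf
  have h1 : cW W ≤ (cW W).comap (RC c i Z) := by
    refine Submodule.span_le.2 ?_
    rintro _ ⟨t, ht, rfl⟩
    show RC c i Z (cx t) ∈ cW W
    have h2 : Z = ∑ p, ∑ q, Z p q • cq (Matrix.single p q (1 : ℚ)) := by
      ext a b
      rw [Matrix.sum_apply, Finset.sum_eq_single a]
      · rw [Matrix.sum_apply, Finset.sum_eq_single b]
        · show Z a b = Z a b * (((Matrix.single a b (1 : ℚ)) a b : ℚ) : ℂ)
          rw [Matrix.single_apply, if_pos ⟨rfl, rfl⟩, Rat.cast_one, mul_one]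
        · intro b' _ hb'
          show Z a b' * (((Matrix.single a b' (1 : ℚ)) a b : ℚ) : ℂ) = 0
          rw [Matrix.single_apply, if_neg (fun hc => hb' hc.2), Rat.cast_zero, mul_zero]
        · intro hc
          exact absurd (Finset.mem_univ _) hc
      · intro a' _ ha'
        rw [Matrix.sum_apply]
        refine Finset.sum_eq_zero fun b' _ => ?_
        show Z a' b' * (((Matrix.single a' b' (1 : ℚ)) a b : ℚ) : ℂ) = 0
        rw [Matrix.single_apply, if_neg (fun hc => ha' hc.1), Rat.cast_zero, mul_zero]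
      · intro hc
        exact absurd (Finset.mem_univ _) hc
    have h3 : ∀ X : Matrix (Fin n) (Fin n) ℚ, RC c i (cq X) (cx t) = cx (RC c i X t) := by
      intro X
      rw [RC_apply, RC_apply, cx_sum]
      refine Finset.sum_congr rfl fun x _ => ?_
      rw [← cx_R]
      congr 2
      ext y y'
      rcases y with y | y <;> rcases y' with y' | y'
      · exact (Rat.cast_zero (α := ℂ)).symm
      · exact (Rat.cast_zero (α := ℂ)).symm
      · exact (Rat.cast_zero (α := ℂ)).symm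
      · rfl
    rw [h2, RC_sum, LinearMap.sum_apply]
    refine (cW W).sum_mem fun p _ => ?_
    rw [RC_sum, LinearMap.sum_apply]
    refine (cW W).sum_mem fun q _ => ?_
    rw [RC_smul, LinearMap.smul_apply, h3]
    exact (cW W).smul_mem _ (cx_mem (h _ t ht))
  exact h1 hf

theorem part_cW (hW : ∀ t ∈ W, Part c t) : ∀ f ∈ cW W, Part c f := by
  intro f hf J hJ
  have h1 : cW W ≤ LinearMap.ker (LinearMap.proj J : Ten ℂ r s n v →ₗ[ℂ] (Fin v → ℂ)) := by
    refine Submodule.span_le.2 ?_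
    rintro _ ⟨t, ht, rfl⟩
    show cx t J = 0
    funext b
    show ((t J b : ℚ) : ℂ) = 0
    rw [hW t ht J hJ, Pi.zero_apply, Rat.cast_zero]
  exact h1 hf

/-- the eigenvalue of a shifted eigenvector -/
theorem Tot_RC (Φ : Fin k → Matrix (Fin n) (Fin n) ℂ) (i : Fin k) (Z : Matrix (Fin n) (Fin n) ℂ) (f : Ten ℂ r s n v) :
    Tot c ν Φ ΦW 1 (RC c i Z f) = RC c i Z (Tot c ν Φ ΦW 1 f) + RC c i (Z * Φ i - Φ i * Z) f := by
  have h1 := LinearMap.congr_fun (Tot_br c ν (Pi.single i Z) Φ (0 : Matrix (Fin v) (Fin v) ℂ) ΦW 0 1) f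
  rw [LinearMap.sub_apply] at h1
  have h2 : (fun j => (Pi.single i Z : Fin k → Matrix (Fin n) (Fin n) ℂ) j * Φ j - Φ j *
      (Pi.single i Z : Fin k → Matrix (Fin n) (Fin n) ℂ) j) = Pi.single i (Z * Φ i - Φ i * Z) := by
    funext j
    by_cases hj : j = i
    · subst hj
      rw [Pi.single_eq_same, Pi.single_eq_same]
    · rw [Pi.single_eq_of_ne hj, Pi.single_eq_of_ne hj, Matrix.zero_mul, Matrix.mul_zero, sub_zero]
  rw [h2, Matrix.zero_mul, Matrix.mul_zero, sub_zero, Tot_single] at h1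
  have h3 : (Tot c ν Φ ΦW 1 * Tot c ν (Pi.single i Z) 0 0 : Module.End ℂ (Ten ℂ r s n v)) f =
      Tot c ν Φ ΦW 1 (RC c i Z f) := by
    show Tot c ν Φ ΦW 1 (Tot c ν (Pi.single i Z) 0 0 f) = _
    rw [Tot_single]
  have h4 : (Tot c ν (Pi.single i Z) 0 0 * Tot c ν Φ ΦW 1 : Module.End ℂ (Ten ℂ r s n v)) f =
      RC c i Z (Tot c ν Φ ΦW 1 f) := by
    show Tot c ν (Pi.single i Z) 0 0 (Tot c ν Φ ΦW 1 f) = _
    rw [Tot_single]
  rw [h3, h4] at h1
  rw [← h1]
  abel

theorem Tot_SH (hB : ∀ i, (B i).det ≠ 0) {f : Ten ℂ r s n v} {lam : ℂ}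
    (hf : Tot c ν (fun i => HO (B i)) ΦW 1 f = lam • f) (i : Fin k) (p q : Fin n) :
    Tot c ν (fun i => HO (B i)) ΦW 1 (RC c i (SH (B i) p q) f) =
      (lam + (((n - 1 - (q : ℕ) : ℕ) : ℂ) - ((n - 1 - (p : ℕ) : ℕ) : ℂ))) • RC c i (SH (B i) p q) f := by
  rw [Tot_RC, hf, map_smul, SH_HO (hB i), HO_SH (hB i), ← sub_smul, RC_smul, LinearMap.smul_apply, ← add_smul]

/-- eigenvectors which are pure in each colour in `S` -/
def Pure (c : Fin r → Fin k) (B : Fin k → Matrix (Fin n) (Fin n) ℂ) (S : Finset (Fin k)) (g : Ten ℂ r s n v) : Prop :=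
  ∀ i ∈ S, (∀ Z, RC c i Z g = 0) ∨ ∃ p, RC c i (SH (B i) p p) g = g

theorem pure_span (hB : ∀ i, (B i).det ≠ 0) (hW : ∀ f ∈ cW W, Part c f)
    (hst : ∀ i Z, ∀ f ∈ cW W, RC c i Z f ∈ cW W) (S : Finset (Fin k)) {f : Ten ℂ r s n v} {lam : ℂ} (hf : f ∈ cW W)
    (hlam : Tot c ν (fun i => HO (B i)) ΦW 1 f = lam • f) :
    f ∈ Submodule.span ℂ {g | g ∈ cW W ∧ Tot c ν (fun i => HO (B i)) ΦW 1 g = lam • g ∧ Pure c B S g} := by
  classical
  induction S using Finset.induction_on with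
  | empty => exact Submodule.subset_span ⟨hf, hlam, fun i hi => absurd hi (Finset.notMem_empty _)⟩
  | insert i S hi ih =>
    refine (Submodule.span_le.2 ?_ : _ ≤ Submodule.span ℂ _) ih
    rintro g ⟨hg, hgl, hgp⟩
    have hdec : g = (g - RC c i 1 g) + ∑ p, RC c i (SH (B i) p p) g := by
      rw [← LinearMap.sum_apply, ← RC_sum, SH_sum (hB i)]
      abel
    have hgs : ∀ p, Tot c ν (fun i => HO (B i)) ΦW 1 (RC c i (SH (B i) p p) g) = lam • RC c i (SH (B i) p p) g := by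
      intro p
      rw [Tot_SH hB hgl, sub_self, add_zero]
    rw [hdec]
    refine Submodule.add_mem _ (Submodule.subset_span ⟨(cW W).sub_mem hg (hst i 1 g hg), ?_, ?_⟩)
      (Submodule.sum_mem _ fun p _ => Submodule.subset_span ⟨hst i _ g hg, hgs p, ?_⟩)
    · rw [map_sub, hgl, Tot_RC, hgl, Matrix.one_mul, Matrix.mul_one, sub_self, RC_zero, LinearMap.zero_apply, add_zero,
        map_smul, smul_sub]
    · intro i' hi'
      rcases Finset.mem_insert.1 hi' with rfl | hi'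
      · left
        intro Z
        rw [map_sub, RC_mul (hW g hg), Matrix.one_mul, sub_self]
      · have hne : i' ≠ i := fun h => hi (h ▸ hi')
        rcases hgp i' hi' with h | ⟨p, hp⟩
        · left
          intro Z
          rw [map_sub, RC_comm c hne, h Z, map_zero, sub_zero]
        · right
          refine ⟨p, ?_⟩
          rw [map_sub, RC_comm c hne, hp]
    · intro i' hi'
      rcases Finset.mem_insert.1 hi' with rfl | hi'
      · right
        refine ⟨p, ?_⟩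
        rw [RC_mul (hW g hg), SH_mul (hB i')]
      · have hne : i' ≠ i := fun h => hi (h ▸ hi')
        rcases hgp i' hi' with h | ⟨p', hp⟩
        · left
          intro Z
          rw [RC_comm c hne, h Z, map_zero]
        · right
          refine ⟨p', ?_⟩
          rw [RC_comm c hne, hp]

/-- shifting all the colours in `I ∩ S` to `q0` -/
theorem shift_all (hB : ∀ i, (B i).det ≠ 0) (hW : ∀ f ∈ cW W, Part c f)
    (hst : ∀ i Z, ∀ f ∈ cW W, RC c i Z f ∈ cW W) {g : Ten ℂ r s n v} {lam : ℂ} (hg : g ∈ cW W) (hg0 : g ≠ 0)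
    (hlam : Tot c ν (fun i => HO (B i)) ΦW 1 g = lam • g) (I : Finset (Fin k)) (p : Fin k → Fin n)
    (hp : ∀ i ∈ I, RC c i (SH (B i) (p i) (p i)) g = g) (q0 : Fin n) (S : Finset (Fin k)) (hS : S ⊆ I) :
    ∃ g' ∈ cW W, g' ≠ 0 ∧ Tot c ν (fun i => HO (B i)) ΦW 1 g' =
      (lam + ∑ i ∈ S, (((n - 1 - (q0 : ℕ) : ℕ) : ℂ) - ((n - 1 - (p i : ℕ) : ℕ) : ℂ))) • g' ∧
      ∀ i ∈ I, i ∉ S → RC c i (SH (B i) (p i) (p i)) g' = g' := by
  classical
  induction S using Finset.induction_on with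
  | empty =>
    refine ⟨g, hg, hg0, ?_, fun i hi _ => hp i hi⟩
    rw [Finset.sum_empty, add_zero]
    exact hlam
  | insert i S hi ih =>
    obtain ⟨g', hg', hg'0, hgl, hgp⟩ := ih (fun x hx => hS (Finset.mem_insert_of_mem hx))
    have hiI : i ∈ I := hS (Finset.mem_insert_self _ _)
    have h1 := hgp i hiI hi
    refine ⟨RC c i (SH (B i) (p i) q0) g', hst i _ g' hg', ?_, ?_, ?_⟩
    · intro h0
      have h2 : RC c i (SH (B i) q0 (p i)) (RC c i (SH (B i) (p i) q0) g') = g' := by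
        rw [RC_mul (hW g' hg'), SH_mul (hB i), h1]
      rw [h0, map_zero] at h2
      exact hg'0 h2.symm
    · rw [Tot_SH hB hgl, Finset.sum_insert hi]
      congr 1
      ring
    · intro i' hi' hn
      have hne : i' ≠ i := fun h => hn (h ▸ Finset.mem_insert_self _ _)
      rw [RC_comm c hne, hgp i' hi' (fun h => hn (Finset.mem_insert_of_mem h))]

/-- eigenvalues on `cW` -/
theorem eig_range {T : Module.End ℂ (Ten ℂ r s n v)} {L : Set ℂ}
    (hspan : ∀ f ∈ cW W, f ∈ Submodule.span ℂ {g | ∃ μ ∈ L, T g = μ • g}) {g : Ten ℂ r s n v} (hg : g ∈ cW W) (hg0 : g ≠ 0)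
    {lam : ℂ} (hlam : T g = lam • g) : lam ∈ L := by
  by_contra hL
  have h1 : g ∈ ⨆ μ ≠ lam, T.eigenspace μ := by
    refine (Submodule.span_le.2 ?_ : Submodule.span ℂ {g | ∃ μ ∈ L, T g = μ • g} ≤ _) (hspan g hg)
    rintro f ⟨μ, hμ, hf⟩
    have h2 : μ ≠ lam := fun h => hL (h ▸ hμ)
    exact Submodule.mem_iSup_of_mem μ (Submodule.mem_iSup_of_mem h2 (Module.End.mem_eigenspace_iff.2 hf))
  have h2 := (Module.End.eigenspaces_iSupIndep T) lam
  have h3 := h2.le_bot ⟨Module.End.mem_eigenspace_iff.2 hlam, h1⟩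
  exact hg0 ((Submodule.mem_bot ℂ).1 h3)

end

end Pool.Agent.T6.H21.GH
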