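import Mathlib

/-!
# Slot operators on the cohomology of a product (helper21)
-/

set_option autoImplicit false

open Matrix

namespace Pool.Agent.T6.H21.GH

/-- tensors with values in `F^v` -/
abbrev Ten (F : Type) (r s n v : ℕ) : Type := (Fin r → Fin s ⊕ Fin n) → Fin v → F

section
variable {F : Type} [Field F] {r k s n v : ℕ}

/-- a matrix on `V`, extended by zero -/
def ex (s : ℕ) {n : ℕ} (X : Matrix (Fin n) (Fin n) F) : Matrix (Fin s ⊕ Fin n) (Fin s ⊕ Fin n) F :=
  fromBlocks 0 0 0 X

/-- the matrix acts on the slot `x` -/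
def R (x : Fin r) (X : Matrix (Fin s ⊕ Fin n) (Fin s ⊕ Fin n) F) : Module.End F (Ten F r s n v) where
  toFun f := fun J b => ∑ y, X y (J x) * f (Function.update J x y) b
  map_add' f g := by
    funext J b
    show ∑ y, X y (J x) * (f (Function.update J x y) b + g (Function.update J x y) b) = _ + _
    rw [← Finset.sum_add_distrib]
    exact Finset.sum_congr rfl fun y _ => mul_add _ _ _
  map_smul' a f := by
    funext J b
    show ∑ y, X y (J x) * (a * f (Function.update J x y) b) = a * _
    rw [Finset.mul_sum]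
    refine Finset.sum_congr rfl fun y _ => ?_
    ring

/-- the matrix acts on the coefficients -/
def ZZ (Y : Matrix (Fin v) (Fin v) F) : Module.End F (Ten F r s n v) where
  toFun f := fun J => f J ᵥ* Y
  map_add' f g := by
    funext J
    exact add_vecMul Y (f J) (g J)
  map_smul' a f := by
    funext J
    exact smul_vecMul a (f J) Y

theorem R_apply (x : Fin r) (X : Matrix (Fin s ⊕ Fin n) (Fin s ⊕ Fin n) F) (f : Ten F r s n v) (J : Fin r → Fin s ⊕ Fin n)
    (b : Fin v) : R x X f J b = ∑ y, X y (J x) * f (Function.update J x y) b := rfl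

theorem ZZ_apply (Y : Matrix (Fin v) (Fin v) F) (f : Ten F r s n v) (J : Fin r → Fin s ⊕ Fin n) :
    ZZ Y f J = f J ᵥ* Y := rfl

theorem R_mul (x : Fin r) (X Y : Matrix (Fin s ⊕ Fin n) (Fin s ⊕ Fin n) F) :
    (R x X : Module.End F (Ten F r s n v)) * R x Y = R x (Y * X) := by
  refine LinearMap.ext fun f => ?_
  funext J b
  show ∑ y, X y (J x) * ∑ y', Y y' (Function.update J x y x) * f (Function.update (Function.update J x y) x y') b =
    ∑ y', (Y * X) y' (J x) * f (Function.update J x y') b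
  simp only [Function.update_self, Function.update_idem, Finset.mul_sum]
  rw [Finset.sum_comm]
  refine Finset.sum_congr rfl fun y' _ => ?_
  rw [Matrix.mul_apply, Finset.sum_mul]
  refine Finset.sum_congr rfl fun y _ => ?_
  ring

theorem R_comm {x x' : Fin r} (h : x ≠ x') (X Y : Matrix (Fin s ⊕ Fin n) (Fin s ⊕ Fin n) F) :
    (R x X : Module.End F (Ten F r s n v)) * R x' Y = R x' Y * R x X := by
  refine LinearMap.ext fun f => ?_
  funext J b
  show ∑ y, X y (J x) * ∑ y', Y y' (Function.update J x y x') * f (Function.update (Function.update J x y) x' y') b =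
    ∑ y', Y y' (J x') * ∑ y, X y (Function.update J x' y' x) * f (Function.update (Function.update J x' y') x y) b
  simp only [Function.update_of_ne h, Function.update_of_ne h.symm, Finset.mul_sum]
  rw [Finset.sum_comm]
  refine Finset.sum_congr rfl fun y' _ => Finset.sum_congr rfl fun y _ => ?_
  rw [Function.update_comm h]
  ring

theorem R_add (x : Fin r) (X Y : Matrix (Fin s ⊕ Fin n) (Fin s ⊕ Fin n) F) :
    (R x (X + Y) : Module.End F (Ten F r s n v)) = R x X + R x Y := by
  refine LinearMap.ext fun f => ?_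
  funext J b
  show ∑ y, (X y (J x) + Y y (J x)) * f (Function.update J x y) b = (∑ y, X y (J x) * f (Function.update J x y) b) +
    ∑ y, Y y (J x) * f (Function.update J x y) b
  rw [← Finset.sum_add_distrib]
  exact Finset.sum_congr rfl fun l _ => add_mul _ _ _

theorem R_smul (x : Fin r) (a : F) (X : Matrix (Fin s ⊕ Fin n) (Fin s ⊕ Fin n) F) :
    (R x (a • X) : Module.End F (Ten F r s n v)) = a • R x X := by
  refine LinearMap.ext fun f => ?_
  funext J b
  show ∑ y, (a * X y (J x)) * f (Function.update J x y) b = a * ∑ y, X y (J x) * f (Function.update J x y) b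
  rw [Finset.mul_sum]
  exact Finset.sum_congr rfl fun l _ => mul_assoc _ _ _

theorem R_sub (x : Fin r) (X Y : Matrix (Fin s ⊕ Fin n) (Fin s ⊕ Fin n) F) :
    (R x (X - Y) : Module.End F (Ten F r s n v)) = R x X - R x Y := by
  refine LinearMap.ext fun f => ?_
  funext J b
  show ∑ y, (X y (J x) - Y y (J x)) * f (Function.update J x y) b = (∑ y, X y (J x) * f (Function.update J x y) b) -
    ∑ y, Y y (J x) * f (Function.update J x y) b
  rw [← Finset.sum_sub_distrib]
  exact Finset.sum_congr rfl fun l _ => sub_mul _ _ _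

theorem ZZ_mul (X Y : Matrix (Fin v) (Fin v) F) :
    (ZZ X : Module.End F (Ten F r s n v)) * ZZ Y = ZZ (Y * X) := by
  refine LinearMap.ext fun f => ?_
  funext J
  show (f J ᵥ* Y) ᵥ* X = f J ᵥ* (Y * X)
  rw [vecMul_vecMul]

theorem ZZ_sub (X Y : Matrix (Fin v) (Fin v) F) :
    (ZZ (X - Y) : Module.End F (Ten F r s n v)) = ZZ X - ZZ Y := by
  refine LinearMap.ext fun f => ?_
  funext J
  exact vecMul_sub X Y (f J)

theorem ZZ_R (x : Fin r) (X : Matrix (Fin s ⊕ Fin n) (Fin s ⊕ Fin n) F) (Y : Matrix (Fin v) (Fin v) F) :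
    (ZZ Y : Module.End F (Ten F r s n v)) * R x X = R x X * ZZ Y := by
  refine LinearMap.ext fun f => ?_
  funext J b
  show ∑ b', (∑ y, X y (J x) * f (Function.update J x y) b') * Y b' b =
    ∑ y, X y (J x) * ∑ b', f (Function.update J x y) b' * Y b' b
  simp only [Finset.mul_sum, Finset.sum_mul]
  rw [Finset.sum_comm]
  refine Finset.sum_congr rfl fun y _ => Finset.sum_congr rfl fun b' _ => ?_
  ring

/-- the matrix on one slot: `X` on `V`, `μ` times the codimension on the algebraic classes -/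
def bl (ν : Fin s → ℕ) (X : Matrix (Fin n) (Fin n) F) (μ : F) : Matrix (Fin s ⊕ Fin n) (Fin s ⊕ Fin n) F :=
  fromBlocks (μ • diagonal fun e => (ν e : F)) 0 0 X

/-- the total operator -/
def Tot (c : Fin r → Fin k) (ν : Fin s → ℕ) (X : Fin k → Matrix (Fin n) (Fin n) F) (Y : Matrix (Fin v) (Fin v) F) (μ : F) :
    Module.End F (Ten F r s n v) :=
  (∑ x, R x (bl ν (X (c x)) μ)) + ZZ Y

theorem bl_br (ν : Fin s → ℕ) (X X' : Matrix (Fin n) (Fin n) F) (μ μ' : F) :
    bl ν X μ * bl ν X' μ' - bl ν X' μ' * bl ν X μ = bl ν (X * X' - X' * X) 0 := by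
  unfold bl
  rw [fromBlocks_multiply, fromBlocks_multiply, sub_eq_add_neg, fromBlocks_neg, fromBlocks_add]
  simp only [Matrix.mul_zero, Matrix.zero_mul, add_zero, zero_add, neg_zero, zero_smul, sub_eq_add_neg]
  congr 1
  rw [smul_mul_smul_comm, smul_mul_smul_comm, diagonal_mul_diagonal, mul_comm μ' μ, add_neg_cancel]

theorem br_sum {ι A : Type} [Fintype ι] [DecidableEq ι] [Ring A] (f g : ι → A) (h : ∀ s t, s ≠ t → f s * g t = g t * f s) :
    (∑ s, f s) * (∑ s, g s) - (∑ s, g s) * ∑ s, f s = ∑ s, (f s * g s - g s * f s) := by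
  rw [Finset.sum_mul_sum, Finset.sum_mul_sum, Finset.sum_comm (f := fun i j => g i * f j), ← Finset.sum_sub_distrib]
  refine Finset.sum_congr rfl fun s _ => ?_
  rw [← Finset.sum_sub_distrib]
  refine (Finset.sum_eq_single s (fun t _ ht => ?_) (fun hc => absurd (Finset.mem_univ _) hc))
  rw [h s t ht.symm, sub_self]

theorem Tot_br (c : Fin r → Fin k) (ν : Fin s → ℕ) (X X' : Fin k → Matrix (Fin n) (Fin n) F) (Y Y' : Matrix (Fin v) (Fin v) F)
    (μ μ' : F) : (Tot c ν X' Y' μ' : Module.End F (Ten F r s n v)) * Tot c ν X Y μ - Tot c ν X Y μ * Tot c ν X' Y' μ' =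
      Tot c ν (fun i => X i * X' i - X' i * X i) (Y * Y' - Y' * Y) 0 := by
  have h1 : ∀ (X : Fin k → Matrix (Fin n) (Fin n) F) (Y : Matrix (Fin v) (Fin v) F) (μ : F),
      (Tot c ν X Y μ : Module.End F (Ten F r s n v)) =
      ∑ t : Fin r ⊕ Unit, Sum.elim (fun x => R x (bl ν (X (c x)) μ)) (fun _ => ZZ Y) t := by
    intro X Y μ
    rw [Fintype.sum_sum_type]
    simp [Tot]
  rw [h1, h1, h1, br_sum]
  · refine Finset.sum_congr rfl fun t _ => ?_
    rcases t with x | u
    · show R x _ * R x _ - R x _ * R x _ = R x _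
      rw [R_mul, R_mul, ← R_sub, bl_br]
    · show ZZ _ * ZZ _ - ZZ _ * ZZ _ = ZZ _
      rw [ZZ_mul, ZZ_mul, ← ZZ_sub]
  · intro t t' htt
    rcases t with x | u <;> rcases t' with x' | u'
    · exact R_comm (fun hc => htt (by rw [hc])) _ _
    · exact (ZZ_R x _ _).symm
    · exact ZZ_R x' _ _
    · exact absurd rfl htt

end

end Pool.Agent.T6.H21.GH
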