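import Pool.Agent.T6.H21.GH.Lie

/-!
# Sub-Hodge structures are stable under the endomorphisms of the factors (helper21)
-/

set_option autoImplicit false

open Matrix

namespace Pool.Agent.T6.H21.GH

section
variable {F : Type} [Field F] {r k s n v : ℕ}

/-- at most one slot of each colour is of type `V` -/
def One (c : Fin r → Fin k) (J : Fin r → Fin s ⊕ Fin n) : Prop :=
  ∀ x x', (∃ l, J x = Sum.inr l) → (∃ l, J x' = Sum.inr l) → c x = c x' → x = x'

/-- a matrix acts on all slots of the colour `i` -/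
def RC (c : Fin r → Fin k) (i : Fin k) (Z : Matrix (Fin n) (Fin n) F) : Module.End F (Ten F r s n v) :=
  ∑ x ∈ Finset.univ.filter (fun x => c x = i), R x (ex s Z)

theorem ex_inl (Z : Matrix (Fin n) (Fin n) F) (y : Fin s ⊕ Fin n) (e : Fin s) : ex s Z y (Sum.inl e) = 0 := by
  rcases y with y | y <;> rfl

theorem ex_inl' (Z : Matrix (Fin n) (Fin n) F) (y : Fin s ⊕ Fin n) (e : Fin s) : ex s Z (Sum.inl e) y = 0 := by
  rcases y with y | y <;> rfl

theorem ex_inr (Z : Matrix (Fin n) (Fin n) F) (l l' : Fin n) : ex s Z (Sum.inr l) (Sum.inr l') = Z l l' := rfl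

theorem ex_mul (X Y : Matrix (Fin n) (Fin n) F) : ex s (X * Y) = ex s X * ex s Y := by
  unfold ex
  rw [fromBlocks_multiply]
  simp

theorem ex_add (X Y : Matrix (Fin n) (Fin n) F) : ex s (X + Y) = ex s X + ex s Y := by
  unfold ex
  rw [fromBlocks_add]
  simp

theorem ex_smul (a : F) (X : Matrix (Fin n) (Fin n) F) : ex s (a • X) = a • ex s X := by
  unfold ex
  rw [fromBlocks_smul]
  simp

theorem ex_zero : ex s (0 : Matrix (Fin n) (Fin n) F) = 0 := by
  unfold ex
  rw [fromBlocks_zero]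

theorem R_zero (x : Fin r) : (R x 0 : Module.End F (Ten F r s n v)) = 0 := by
  refine LinearMap.ext fun f => ?_
  funext J b
  rw [R_apply]
  simp

theorem RC_apply (c : Fin r → Fin k) (i : Fin k) (Z : Matrix (Fin n) (Fin n) F) (f : Ten F r s n v) :
    RC c i Z f = ∑ x ∈ Finset.univ.filter (fun x => c x = i), R x (ex s Z) f := by
  unfold RC
  rw [LinearMap.sum_apply]

theorem RC_add (c : Fin r → Fin k) (i : Fin k) (X Y : Matrix (Fin n) (Fin n) F) :
    (RC c i (X + Y) : Module.End F (Ten F r s n v)) = RC c i X + RC c i Y := by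
  unfold RC
  rw [← Finset.sum_add_distrib]
  exact Finset.sum_congr rfl fun x _ => by rw [ex_add, R_add]

theorem RC_smul (c : Fin r → Fin k) (i : Fin k) (a : F) (X : Matrix (Fin n) (Fin n) F) :
    (RC c i (a • X) : Module.End F (Ten F r s n v)) = a • RC c i X := by
  unfold RC
  rw [Finset.smul_sum]
  exact Finset.sum_congr rfl fun x _ => by rw [ex_smul, R_smul]

theorem RC_zero (c : Fin r → Fin k) (i : Fin k) : (RC c i 0 : Module.End F (Ten F r s n v)) = 0 := by
  unfold RC
  exact Finset.sum_eq_zero fun x _ => by rw [ex_zero, R_zero]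

theorem RC_sum {ι : Type} (c : Fin r → Fin k) (i : Fin k) (S : Finset ι) (X : ι → Matrix (Fin n) (Fin n) F) :
    (RC c i (∑ j ∈ S, X j) : Module.End F (Ten F r s n v)) = ∑ j ∈ S, RC c i (X j) := by
  classical
  induction S using Finset.induction_on with
  | empty => rw [Finset.sum_empty, Finset.sum_empty, RC_zero]
  | insert a S ha ih => rw [Finset.sum_insert ha, Finset.sum_insert ha, RC_add, ih]

theorem R_comm_apply {x x' : Fin r} (h : x ≠ x') (X Y : Matrix (Fin s ⊕ Fin n) (Fin s ⊕ Fin n) F) (f : Ten F r s n v) :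
    R x X (R x' Y f) = R x' Y (R x X f) := by
  have h1 := R_comm (v := v) h X Y
  exact LinearMap.congr_fun h1 f

theorem RC_comm (c : Fin r → Fin k) {i i' : Fin k} (h : i ≠ i') (Z Z' : Matrix (Fin n) (Fin n) F) (f : Ten F r s n v) :
    RC c i Z (RC c i' Z' f) = RC c i' Z' (RC c i Z f) := by
  rw [RC_apply, RC_apply, RC_apply, RC_apply]
  simp only [map_sum]
  rw [Finset.sum_comm]
  refine Finset.sum_congr rfl fun x' hx' => Finset.sum_congr rfl fun x hx => ?_
  refine R_comm_apply ?_ _ _ _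
  intro hxx
  rw [Finset.mem_filter] at hx hx'
  exact h (by rw [← hx.2, hxx, hx'.2])

/-- the part of the cohomology with at most one factor of each colour -/
def Part (c : Fin r → Fin k) (f : Ten F r s n v) : Prop := ∀ J, ¬ One c J → f J = 0

theorem one_update {c : Fin r → Fin k} {J : Fin r → Fin s ⊕ Fin n} {x : Fin r} {l l' : Fin n} (h : J x = Sum.inr l) :
    One c (Function.update J x (Sum.inr l')) ↔ One c J := by
  have h1 : ∀ x', (∃ l, Function.update J x (Sum.inr l') x' = Sum.inr l) ↔ ∃ l, J x' = Sum.inr l := by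
    intro x'
    by_cases hx : x' = x
    · subst hx
      rw [Function.update_self]
      exact ⟨fun _ => ⟨l, h⟩, fun _ => ⟨l', rfl⟩⟩
    · rw [Function.update_of_ne hx]
  unfold One
  constructor
  · intro h2 a b ha hb
    exact h2 a b ((h1 a).2 ha) ((h1 b).2 hb)
  · intro h2 a b ha hb
    exact h2 a b ((h1 a).1 ha) ((h1 b).1 hb)

theorem R_part {c : Fin r → Fin k} {f : Ten F r s n v} (hf : Part c f) (x : Fin r) (Z : Matrix (Fin n) (Fin n) F) :
    Part c (R x (ex s Z) f) := by
  intro J hJ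
  funext b
  rw [R_apply]
  refine Finset.sum_eq_zero fun y _ => ?_
  rcases hx : J x with e | l
  · rw [ex_inl, zero_mul]
  · rcases y with e | l'
    · rw [ex_inl', zero_mul]
    · rw [hf _ (fun h => hJ ((one_update hx).1 h)), Pi.zero_apply, mul_zero]

theorem RC_part {c : Fin r → Fin k} {f : Ten F r s n v} (hf : Part c f) (i : Fin k) (Z : Matrix (Fin n) (Fin n) F) :
    Part c (RC c i Z f) := by
  intro J hJ
  rw [RC_apply, Finset.sum_apply]
  exact Finset.sum_eq_zero fun x _ => R_part hf x Z J hJ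

theorem RC_mul {c : Fin r → Fin k} {f : Ten F r s n v} (hf : Part c f) (i : Fin k) (Z Z' : Matrix (Fin n) (Fin n) F) :
    RC c i Z (RC c i Z' f) = RC c i (Z' * Z) f := by
  rw [RC_apply, RC_apply, RC_apply]
  refine Finset.sum_congr rfl fun x hx => ?_
  rw [map_sum, Finset.sum_eq_single x]
  · rw [ex_mul, ← R_mul]
    rfl
  · intro x' hx' hne
    funext J b
    rw [R_apply]
    refine Finset.sum_eq_zero fun y _ => ?_
    rcases hJ : J x with e | l
    · rw [ex_inl, zero_mul]
    · rcases y with e | l'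
      · rw [ex_inl', zero_mul]
      · rw [R_apply]
        rw [Finset.sum_eq_zero, mul_zero]
        intro y' _
        rcases hJ' : (Function.update J x (Sum.inr l')) x' with e | m
        · rw [ex_inl, zero_mul]
        · rcases y' with e | m'
          · rw [ex_inl', zero_mul]
          · rw [hf, Pi.zero_apply, mul_zero]
            intro hone
            refine hne (hone x' x ⟨m', Function.update_self ..⟩ ⟨l', ?_⟩ ?_)
            · rw [Function.update_of_ne (Ne.symm hne), Function.update_self]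
            · rw [(Finset.mem_filter.1 hx).2, (Finset.mem_filter.1 hx').2]
  · intro h
    exact absurd hx h

theorem bl_zero (ν : Fin s → ℕ) (X : Matrix (Fin n) (Fin n) F) : bl ν X 0 = ex s X := by
  unfold bl ex
  rw [zero_smul]

theorem Tot_single (c : Fin r → Fin k) (ν : Fin s → ℕ) (i : Fin k) (Z : Matrix (Fin n) (Fin n) F) (f : Ten F r s n v) :
    Tot c ν (Pi.single i Z) 0 0 f = RC c i Z f := by
  unfold Tot
  rw [LinearMap.add_apply, LinearMap.sum_apply, RC_apply, Finset.sum_filter]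
  have h1 : (ZZ 0 : Module.End F (Ten F r s n v)) f = 0 := by
    funext J
    exact vecMul_zero (f J)
  rw [h1, add_zero]
  refine Finset.sum_congr rfl fun x _ => ?_
  rw [bl_zero]
  by_cases h : c x = i
  · rw [if_pos h, h, Pi.single_eq_same]
  · rw [if_neg h, Pi.single_eq_of_ne h, ex_zero, R_zero, LinearMap.zero_apply]

/-! ### matrices of rank one -/

/-- the operator `a ↦ ω(a, u) v` on row vectors, `ω (a, u) = a A uᵀ` -/
def E1 (A : Matrix (Fin n) (Fin n) F) (u w : Fin n → F) : Matrix (Fin n) (Fin n) F := vecMulVec (A *ᵥ u) w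

theorem E1_mul (A : Matrix (Fin n) (Fin n) F) (u w u' w' : Fin n → F) :
    E1 A u w * E1 A u' w' = (w ⬝ᵥ (A *ᵥ u')) • E1 A u w' := by
  unfold E1
  ext i j
  rw [Matrix.mul_apply, Matrix.smul_apply, smul_eq_mul]
  simp only [vecMulVec_apply]
  rw [dotProduct, Finset.sum_mul]
  refine Finset.sum_congr rfl fun l _ => ?_
  ring

theorem om_anti {A : Matrix (Fin n) (Fin n) F} (hA : Aᵀ = -A) (u w : Fin n → F) :
    w ⬝ᵥ (A *ᵥ u) = -(u ⬝ᵥ (A *ᵥ w)) := by
  rw [dotProduct_mulVec, ← mulVec_transpose, hA, neg_mulVec, neg_dotProduct, dotProduct_comm]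

theorem om_self [CharZero F] {A : Matrix (Fin n) (Fin n) F} (hA : Aᵀ = -A) (u : Fin n → F) : u ⬝ᵥ (A *ᵥ u) = 0 := by
  have h1 := om_anti hA u u
  have h2 : (2 : F) * (u ⬝ᵥ (A *ᵥ u)) = 0 := by
    linear_combination h1
  exact (mul_eq_zero.1 h2).resolve_left two_ne_zero

theorem E1_sp {A : Matrix (Fin n) (Fin n) F} (hA : Aᵀ = -A) (u : Fin n → F) :
    E1 A u u * A + A * (E1 A u u)ᵀ = 0 := by
  ext i j
  rw [Matrix.add_apply, Matrix.mul_apply, Matrix.mul_apply, Matrix.zero_apply]
  unfold E1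
  simp only [vecMulVec_apply, Matrix.transpose_apply]
  have h1 : ∑ x, (A *ᵥ u) i * u x * A x j = (A *ᵥ u) i * (u ᵥ* A) j := by
    rw [vecMul, dotProduct, Finset.mul_sum]
    exact Finset.sum_congr rfl fun x _ => mul_assoc _ _ _
  have h2 : ∑ x, A i x * ((A *ᵥ u) j * u x) = (A *ᵥ u) i * (A *ᵥ u) j := by
    have h3 : (A *ᵥ u) i = ∑ x, A i x * u x := rfl
    rw [h3, Finset.sum_mul]
    exact Finset.sum_congr rfl fun x _ => by ring
  have h4 : u ᵥ* A = -(A *ᵥ u) := by
    rw [← mulVec_transpose, hA, neg_mulVec]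
  rw [h1, h2, h4, Pi.neg_apply]
  ring

end

section
variable {r k s n v : ℕ}

/-- **Stability.** -/
theorem stab {A : Matrix (Fin n) (Fin n) ℚ} (hA : Aᵀ = -A) (hdet : A.det ≠ 0) {c : Fin r → Fin k} {ν : Fin s → ℕ}
    {W : Submodule ℚ (Ten ℚ r s n v)} (hW : ∀ t ∈ W, Part c t)
    (hsp : ∀ X : Fin k → Matrix (Fin n) (Fin n) ℚ, (∀ i, X i * A + A * (X i)ᵀ = 0) → (X, 0) ∈ LW c ν W) (i : Fin k)
    (Z : Matrix (Fin n) (Fin n) ℚ) : ∀ t ∈ W, RC c i Z t ∈ W := by
  classical
  have hu : IsUnit A.det := isUnit_iff_ne_zero.2 hdet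
  have hsm : ∀ (a : ℚ) (Z : Matrix (Fin n) (Fin n) ℚ), a ≠ 0 → (∀ t ∈ W, RC c i (a • Z) t ∈ W) → ∀ t ∈ W, RC c i Z t ∈ W := by
    intro a Z ha h t ht
    have h1 := W.smul_mem a⁻¹ (h t ht)
    rwa [RC_smul, LinearMap.smul_apply, smul_smul, inv_mul_cancel₀ ha, one_smul] at h1
  -- brackets
  have hbr : ∀ X0 X1 : Matrix (Fin n) (Fin n) ℚ, X0 * A + A * X0ᵀ = 0 → X1 * A + A * X1ᵀ = 0 → ∀ t ∈ W,
      RC c i (X0 * X1 - X1 * X0) t ∈ W := by
    intro X0 X1 h0 h1 t ht
    have hs : ∀ X : Matrix (Fin n) (Fin n) ℚ, X * A + A * Xᵀ = 0 → ((Pi.single i X, 0) :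
        (Fin k → Matrix (Fin n) (Fin n) ℚ) × Matrix (Fin v) (Fin v) ℚ) ∈ LW c ν W := by
      intro X hX
      refine hsp _ fun j => ?_
      by_cases hj : j = i
      · subst hj
        rw [Pi.single_eq_same]
        exact hX
      · rw [Pi.single_eq_of_ne hj, Matrix.zero_mul, Matrix.transpose_zero, Matrix.mul_zero, add_zero]
    obtain ⟨μ, hμ⟩ := hs X0 h0
    obtain ⟨μ', hμ'⟩ := hs X1 h1
    have h2 : Tot c ν (fun j => (Pi.single i X0 : Fin k → Matrix (Fin n) (Fin n) ℚ) j * (Pi.single i X1 : Fin k → Matrix (Fin n) (Fin n) ℚ) j -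
        (Pi.single i X1 : Fin k → Matrix (Fin n) (Fin n) ℚ) j * (Pi.single i X0 : Fin k → Matrix (Fin n) (Fin n) ℚ) j)
        ((0 : Matrix (Fin v) (Fin v) ℚ) * 0 - 0 * 0) 0 t ∈ W := by
      rw [← Tot_br c ν _ _ _ _ μ μ']
      exact W.sub_mem (hμ' _ (hμ t ht)) (hμ _ (hμ' t ht))
    have h3 : (fun j => (Pi.single i X0 : Fin k → Matrix (Fin n) (Fin n) ℚ) j * (Pi.single i X1 : Fin k → Matrix (Fin n) (Fin n) ℚ) j -
        (Pi.single i X1 : Fin k → Matrix (Fin n) (Fin n) ℚ) j * (Pi.single i X0 : Fin k → Matrix (Fin n) (Fin n) ℚ) j) =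
        Pi.single i (X0 * X1 - X1 * X0) := by
      funext j
      by_cases hj : j = i
      · subst hj
        rw [Pi.single_eq_same, Pi.single_eq_same, Pi.single_eq_same]
      · rw [Pi.single_eq_of_ne hj, Pi.single_eq_of_ne hj, Pi.single_eq_of_ne hj, Matrix.zero_mul, sub_zero]
    rwa [h3, Matrix.zero_mul, sub_zero, Tot_single] at h2
  -- a vector which is not orthogonal
  have hex : ∀ w : Fin n → ℚ, w ≠ 0 → ∃ u : Fin n → ℚ, u ⬝ᵥ (A *ᵥ w) ≠ 0 := by
    intro w hw
    by_contra hcon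
    push_neg at hcon
    refine hw ?_
    have h1 : A *ᵥ w = 0 := by
      funext j
      have h2 := hcon (Pi.single j 1)
      rwa [single_one_dotProduct] at h2
    have h2 : A⁻¹ *ᵥ (A *ᵥ w) = w := by
      rw [mulVec_mulVec, nonsing_inv_mul _ hu, one_mulVec]
    rw [← h2, h1, mulVec_zero]
  have hE0 : ∀ w, ∀ t ∈ W, RC c i (E1 A w w) t ∈ W := by
    intro w
    by_cases hw : w = 0
    · intro t ht
      have h1 : E1 A w w = 0 := by
        ext a b
        unfold E1
        rw [vecMulVec_apply, hw, Pi.zero_apply, mul_zero]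
        rfl
      rw [h1, RC_zero]
      exact W.zero_mem
    · obtain ⟨u, hu'⟩ := hex w hw
      set a := u ⬝ᵥ (A *ᵥ w) with ha
      have h1 : E1 A u u * E1 A w w - E1 A w w * E1 A u u = a • (E1 A u w + E1 A w u) := by
        rw [E1_mul, E1_mul, om_anti hA u w, ← ha, neg_smul, sub_neg_eq_add, smul_add]
      have hH : (E1 A u u * E1 A w w - E1 A w w * E1 A u u) * A + A * (E1 A u u * E1 A w w - E1 A w w * E1 A u u)ᵀ = 0 := by
        have h2 := E1_sp hA u
        have h3 := E1_sp hA w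
        have h4 : E1 A u u * A = -(A * (E1 A u u)ᵀ) := eq_neg_of_add_eq_zero_left h2
        have h5 : E1 A w w * A = -(A * (E1 A w w)ᵀ) := eq_neg_of_add_eq_zero_left h3
        rw [transpose_sub, transpose_mul, transpose_mul, Matrix.sub_mul, Matrix.mul_assoc, Matrix.mul_assoc, h4, h5,
          Matrix.mul_neg, Matrix.mul_neg, ← Matrix.mul_assoc, ← Matrix.mul_assoc, h4, h5, Matrix.neg_mul, Matrix.neg_mul,
          Matrix.mul_sub, Matrix.mul_assoc, Matrix.mul_assoc]
        abel
      have h2 := hbr _ _ hH (E1_sp hA w)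
      have h3 : (E1 A u u * E1 A w w - E1 A w w * E1 A u u) * E1 A w w - E1 A w w *
          (E1 A u u * E1 A w w - E1 A w w * E1 A u u) = (2 * a * a) • E1 A w w := by
        rw [h1, smul_mul_assoc, mul_smul_comm, add_mul, mul_add, E1_mul, E1_mul, E1_mul, E1_mul, om_self hA w,
          om_anti hA u w, ← ha, zero_smul, zero_smul, zero_add, add_zero, neg_smul, ← smul_sub, sub_neg_eq_add, ← add_smul,
          smul_smul]
        congr 1
        ring
      rw [h3] at h2
      exact hsm _ _ (mul_ne_zero (mul_ne_zero two_ne_zero hu') hu') h2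
  have hE1 : ∀ u w, u ⬝ᵥ (A *ᵥ w) ≠ 0 → ∀ t ∈ W, RC c i (E1 A u w) t ∈ W := by
    intro u w huw
    refine hsm _ _ huw fun t ht => ?_
    rw [← E1_mul A u u w w, ← RC_mul (hW t ht)]
    exact hE0 w _ (hE0 u t ht)
  have hE2 : ∀ u w, ∀ t ∈ W, RC c i (E1 A u w) t ∈ W := by
    intro u w
    by_cases hw : w = 0
    · intro t ht
      have h1 : E1 A u w = 0 := by
        ext a b
        unfold E1
        rw [vecMulVec_apply, hw, Pi.zero_apply, mul_zero]
        rfl
      rw [h1, RC_zero]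
      exact W.zero_mem
    · by_cases huw : u ⬝ᵥ (A *ᵥ w) = 0
      · obtain ⟨z, hz⟩ := hex w hw
        intro t ht
        have h1 : E1 A u w = E1 A (u + z) w + (-1 : ℚ) • E1 A z w := by
          ext a b
          rw [Matrix.add_apply, Matrix.smul_apply]
          unfold E1
          rw [vecMulVec_apply, vecMulVec_apply, vecMulVec_apply, mulVec_add, Pi.add_apply, smul_eq_mul]
          ring
        rw [h1, RC_add, RC_smul, LinearMap.add_apply, LinearMap.smul_apply]
        refine W.add_mem (hE1 _ _ ?_ t ht) (W.smul_mem _ (hE1 _ _ hz t ht))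
        rw [add_dotProduct, huw, zero_add]
        exact hz
      · exact hE1 u w huw
  intro t ht
  have h1 : Z = ∑ p, ∑ q, Z p q • E1 A (A⁻¹ *ᵥ Pi.single p 1) (Pi.single q 1) := by
    ext a b
    rw [Matrix.sum_apply, Finset.sum_eq_single a]
    · rw [Matrix.sum_apply, Finset.sum_eq_single b]
      · unfold E1
        rw [Matrix.smul_apply, vecMulVec_apply, mulVec_mulVec, mul_nonsing_inv _ hu, one_mulVec, Pi.single_eq_same,
          Pi.single_eq_same, smul_eq_mul, mul_one, mul_one]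
      · intro b' _ hb'
        unfold E1
        rw [Matrix.smul_apply, vecMulVec_apply, Pi.single_eq_of_ne (Ne.symm hb'), mul_zero, smul_zero]
      · intro h
        exact absurd (Finset.mem_univ _) h
    · intro a' _ ha'
      rw [Matrix.sum_apply]
      refine Finset.sum_eq_zero fun b' _ => ?_
      unfold E1
      rw [Matrix.smul_apply, vecMulVec_apply, mulVec_mulVec, mul_nonsing_inv _ hu, one_mulVec,
        Pi.single_eq_of_ne (Ne.symm ha'), zero_mul, smul_zero]
    · intro h
      exact absurd (Finset.mem_univ _) h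
  rw [h1, RC_sum, LinearMap.sum_apply]
  refine W.sum_mem fun p _ => ?_
  rw [RC_sum, LinearMap.sum_apply]
  refine W.sum_mem fun q _ => ?_
  rw [RC_smul, LinearMap.smul_apply]
  exact W.smul_mem _ (hE2 _ _ t ht)

end

end Pool.Agent.T6.H21.GH
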