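import Pool.Agent.T6.H21.GH.Main

/-!
# The values of pure classes, and the generalized Hodge conjecture (helper21)
-/

set_option autoImplicit false

open Matrix

namespace Pool.Agent.T6.H21.GH

open Pool.Agent.Y113.MT (cq)

/-- a rational vector as a complex vector -/
def cz {v : ℕ} (z : Fin v → ℚ) : Fin v → ℂ := fun b => (z b : ℂ)

/-- the class `h` on a factor has first Hodge index `p` -/
def IsType {s n : ℕ} (ν : Fin s → ℕ) (V : ℕ → Submodule ℂ (Fin n → ℂ)) (p : ℕ) (h : Fin s ⊕ Fin n → ℂ) : Prop :=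
  (∀ e, h (Sum.inl e) ≠ 0 → ν e = p) ∧ ((p < n ∧ (fun l => h (Sum.inr l)) ∈ V p) ∨ ∀ l, h (Sum.inr l) = 0)

/-- the classes on the product with first Hodge index `P` -/
def Types {r k s n v : ℕ} (ν : Fin s → ℕ) (V : Fin k → ℕ → Submodule ℂ (Fin n → ℂ)) (c : Fin r → Fin k)
    (U : ℤ → Submodule ℂ (Fin v → ℂ)) (P : ℤ) : Submodule ℂ (Ten ℂ r s n v) :=
  Submodule.span ℂ {f | ∃ (p : Fin r → ℕ) (h : Fin r → Fin s ⊕ Fin n → ℂ) (q : ℤ) (w : Fin v → ℂ),
    (∀ x, IsType ν (V (c x)) (p x) (h x)) ∧ w ∈ U q ∧ ∑ x, (p x : ℤ) + q = P ∧ f = fun J b => (∏ x, h x (J x)) * w b}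

/-- the generalized Hodge conjecture for `Z` -/
def GHCZ {v : ℕ} (dg : Fin v → ℕ) (U : ℤ → Submodule ℂ (Fin v → ℂ)) (Nz : ℕ → Submodule ℚ (Fin v → ℚ)) : Prop :=
  Nz 0 = ⊤ ∧ ∀ (i j : ℕ) (S : Submodule ℚ (Fin v → ℚ)), (∀ z ∈ S, ∀ b, z b ≠ 0 → dg b = i) →
    (∀ z ∈ S, cz z ∈ Submodule.span ℂ {y | y ∈ Submodule.span ℂ (cz '' (S : Set _)) ∧
      ∃ q : ℤ, (j : ℤ) ≤ q ∧ q ≤ (i : ℤ) - j ∧ y ∈ U q}) → S ≤ Nz j

/-- classes of coniveau at least `j` on the product -/
def coniv {r s v : ℕ} (n : ℕ) (ν : Fin s → ℕ) (Nz : ℕ → Submodule ℚ (Fin v → ℚ)) (j : ℕ) :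
    Submodule ℚ (Ten ℚ r s n v) :=
  Submodule.span ℚ {t | ∃ (a : Fin r → ℕ) (α : Fin r → Fin s ⊕ Fin n → ℚ) (j' : ℕ) (z : Fin v → ℚ),
    (∀ x, (∀ e, α x (Sum.inl e) ≠ 0 → a x ≤ ν e) ∧ ∀ l, α x (Sum.inr l) ≠ 0 → a x = 0) ∧ z ∈ Nz j' ∧
    j ≤ ∑ x, a x + j' ∧ t = fun J b => (∏ x, α x (J x)) * z b}

section
variable {r k s n v : ℕ} {c : Fin r → Fin k} {ν : Fin s → ℕ} {W : Submodule ℚ (Ten ℚ r s n v)}
  {B : Fin k → Matrix (Fin n) (Fin n) ℂ} {ΦW : Matrix (Fin v) (Fin v) ℂ}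

theorem R_ex_inl {F : Type} [Field F] {x : Fin r} {J : Fin r → Fin s ⊕ Fin n} {e : Fin s} (h : J x = Sum.inl e)
    (Z : Matrix (Fin n) (Fin n) F) (g : Ten F r s n v) : R x (ex s Z) g J = 0 := by
  funext b
  rw [R_apply]
  refine Finset.sum_eq_zero fun y _ => ?_
  rw [h, ex_inl, zero_mul]

theorem RC_val {x : Fin r} {J : Fin r → Fin s ⊕ Fin n} (hJ : One c J) {l : Fin n} (h : J x = Sum.inr l)
    (Z : Matrix (Fin n) (Fin n) ℂ) (g : Ten ℂ r s n v) : RC c (c x) Z g J = R x (ex s Z) g J := by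
  rw [RC_apply, Finset.sum_apply, Finset.sum_eq_single x]
  · intro x' hx' hne
    rcases hx : J x' with e | l'
    · exact R_ex_inl hx Z g
    · exact absurd (hJ x' x ⟨l', hx⟩ ⟨l, h⟩ (Finset.mem_filter.1 hx').2) hne
  · intro hc
    exact (hc (Finset.mem_filter.2 ⟨Finset.mem_univ _, rfl⟩)).elim

theorem RC_val0 {i : Fin k} {J : Fin r → Fin s ⊕ Fin n} (h : ∀ x, c x = i → ∃ e, J x = Sum.inl e)
    (Z : Matrix (Fin n) (Fin n) ℂ) (g : Ten ℂ r s n v) : RC c i Z g J = 0 := by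
  rw [RC_apply, Finset.sum_apply]
  refine Finset.sum_eq_zero fun x hx => ?_
  obtain ⟨e, he⟩ := h x (Finset.mem_filter.1 hx).2
  exact R_ex_inl he Z g

theorem R_one_val {x : Fin r} {J : Fin r → Fin s ⊕ Fin n} {l : Fin n} (h : J x = Sum.inr l) (g : Ten ℂ r s n v) :
    R x (ex s 1) g J = g J := by
  funext b
  rw [R_apply, Finset.sum_eq_single (Sum.inr l)]
  · rw [h, ex_inr, Matrix.one_apply_eq, one_mul, ← h, Function.update_eq_self]
  · intro y _ hy
    rcases y with e | l'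
    · rw [ex_inl', zero_mul]
    · rw [h, ex_inr, Matrix.one_apply_ne (fun hc => hy (by rw [hc])), zero_mul]
  · intro hc
    exact absurd (Finset.mem_univ _) hc

theorem R_bl_inl {x : Fin r} {J : Fin r → Fin s ⊕ Fin n} {e : Fin s} (h : J x = Sum.inl e)
    (Z : Matrix (Fin n) (Fin n) ℂ) (g : Ten ℂ r s n v) : R x (bl ν Z 1) g J = (ν e : ℂ) • g J := by
  funext b
  rw [R_apply, Finset.sum_eq_single (Sum.inl e)]
  · rw [h, ← h, Function.update_eq_self, h, Pi.smul_apply, smul_eq_mul]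
    congr 1
    show ((1 : ℂ) • diagonal fun e => (ν e : ℂ)) e e = _
    rw [one_smul, diagonal_apply_eq]
  · intro y _ hy
    rcases y with e' | l'
    · rw [h]
      show ((1 : ℂ) • diagonal fun e => (ν e : ℂ)) e' e * _ = 0
      rw [one_smul, diagonal_apply_ne _ (fun hc => hy (by rw [hc])), zero_mul]
    · rw [h]
      show (0 : ℂ) * _ = 0
      rw [zero_mul]
  · intro hc
    exact absurd (Finset.mem_univ _) hc

theorem R_bl_inr {x : Fin r} {J : Fin r → Fin s ⊕ Fin n} {l : Fin n} (h : J x = Sum.inr l)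
    (Z : Matrix (Fin n) (Fin n) ℂ) (g : Ten ℂ r s n v) : R x (bl ν Z 1) g J = R x (ex s Z) g J := by
  funext b
  rw [R_apply, R_apply]
  refine Finset.sum_congr rfl fun y _ => ?_
  rw [h]
  rcases y with e' | l'
  · rfl
  · rfl

/-- the slots of type `V` -/
noncomputable def VS (J : Fin r → Fin s ⊕ Fin n) : Finset (Fin r) := by
  classical exact Finset.univ.filter fun x => ∃ l, J x = Sum.inr l

/-- the total codimension of the algebraic classes -/
def nuJ (ν : Fin s → ℕ) (J : Fin r → Fin s ⊕ Fin n) : ℕ := ∑ x, Sum.elim ν (fun _ => 0) (J x)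

/-- the values of pure eigenvectors -/
theorem pure_val (hB : ∀ i, (B i).det ≠ 0) (hW : ∀ f ∈ cW W, Part c f) {g : Ten ℂ r s n v} {lam : ℂ} (hg : g ∈ cW W)
    (hlam : Tot c ν (fun i => HO (B i)) ΦW 1 g = lam • g) {I : Finset (Fin k)} {p : Fin k → Fin n}
    (hp : ∀ i ∈ I, RC c i (SH (B i) (p i) (p i)) g = g) (hI : ∀ i ∉ I, ∀ Z, RC c i Z g = 0)
    {J : Fin r → Fin s ⊕ Fin n} (hJ : g J ≠ 0) :
    (VS J).card = I.card ∧
    g J ᵥ* ΦW = (lam - (nuJ ν J : ℂ) - ∑ i ∈ I, ((n - 1 - (p i : ℕ) : ℕ) : ℂ)) • g J := by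
  classical
  have hone : One c J := by
    by_contra h
    exact hJ (hW g hg J h)
  have hmem : ∀ x, x ∈ VS J ↔ ∃ l, J x = Sum.inr l := fun x => by
    unfold VS
    rw [Finset.mem_filter]
    exact ⟨fun h => h.2, fun h => ⟨Finset.mem_univ _, h⟩⟩
  have hinj : Set.InjOn c (VS J : Set (Fin r)) := fun x hx x' hx' h =>
    hone x x' ((hmem x).1 hx) ((hmem x').1 hx') h
  have himg : (VS J).image c = I := by
    ext i
    rw [Finset.mem_image]
    constructor
    · rintro ⟨x, hx, rfl⟩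
      obtain ⟨l, hl⟩ := (hmem x).1 hx
      by_contra hi
      have h1 := congrFun (hI (c x) hi 1) J
      rw [RC_val hone hl, R_one_val hl] at h1
      exact hJ h1
    · intro hi
      by_contra hcon
      push Not at hcon
      refine hJ ?_
      rw [← hp i hi]
      refine RC_val0 (fun x hx => ?_) _ _
      rcases hx' : J x with e | l
      · exact ⟨e, rfl⟩
      · exact absurd hx (hcon x ((hmem x).2 ⟨l, hx'⟩))
  refine ⟨by rw [← himg, Finset.card_image_of_injOn hinj], ?_⟩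
  have hx : ∀ x, R x (bl ν (HO (B (c x))) 1) g J =
      (Sum.elim (fun e => (ν e : ℂ)) (fun _ => ((n - 1 - (p (c x) : ℕ) : ℕ) : ℂ)) (J x)) • g J := by
    intro x
    rcases hx : J x with e | l
    · exact R_bl_inl hx _ _
    · rw [R_bl_inr hx]
      have hi : c x ∈ I := by
        rw [← himg]
        exact Finset.mem_image_of_mem c ((hmem x).2 ⟨l, hx⟩)
      rw [← RC_val hone hx]
      have h1 : RC c (c x) (HO (B (c x))) g = ((n - 1 - (p (c x) : ℕ) : ℕ) : ℂ) • g := by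
        have h2 := RC_mul (hW g hg) (c x) (HO (B (c x))) (SH (B (c x)) (p (c x)) (p (c x)))
        rw [hp _ hi, SH_HO (hB _), RC_smul, LinearMap.smul_apply, hp _ hi] at h2
        exact h2
      rw [h1]
      rfl
  have h1 := congrFun hlam J
  unfold Tot at h1
  rw [LinearMap.add_apply, LinearMap.sum_apply, Pi.add_apply, Finset.sum_apply, Finset.sum_congr rfl fun x _ => hx x,
    ← Finset.sum_smul, ZZ_apply, Pi.smul_apply] at h1
  have h2 : ∑ x, (Sum.elim (fun e => (ν e : ℂ)) (fun _ => ((n - 1 - (p (c x) : ℕ) : ℕ) : ℂ)) (J x)) =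
      (nuJ ν J : ℂ) + ∑ i ∈ I, ((n - 1 - (p i : ℕ) : ℕ) : ℂ) := by
    rw [← himg, Finset.sum_image hinj]
    unfold nuJ VS
    push_cast
    rw [Finset.sum_filter, ← Finset.sum_add_distrib]
    refine Finset.sum_congr rfl fun x _ => ?_
    rcases J x with e | l
    · rw [if_neg (by rintro ⟨l, hl⟩; cases hl)]
      simp
    · rw [if_pos ⟨l, rfl⟩]
      simp
  rw [h2] at h1
  have h3 := eq_sub_of_add_eq' h1
  rw [h3, ← sub_smul]
  congr 1
  ring

/-- eigenvectors of the Hodge operator of `Z` -/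
theorem mem_U {U : ℤ → Submodule ℂ (Fin v → ℂ)} (hU : DirectSum.IsInternal U)
    (hΦW : ∀ p, ∀ z ∈ U p, z ᵥ* ΦW = (p : ℂ) • z) {z : Fin v → ℂ} {q : ℤ} (hz : z ᵥ* ΦW = (q : ℂ) • z) : z ∈ U q := by
  classical
  let T : Module.End ℂ (Fin v → ℂ) :=
    { toFun := fun z => z ᵥ* ΦW
      map_add' := fun a b => add_vecMul _ _ _
      map_smul' := fun a b => smul_vecMul _ _ _ }
  have htop : z ∈ ⨆ p, U p := by
    rw [hU.submodule_iSup_eq_top]
    exact Submodule.mem_top
  have h1 : (⨆ p, U p) ≤ U q ⊔ ⨆ p ≠ q, U p := by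
    refine iSup_le fun p => ?_
    by_cases hp : p = q
    · subst hp
      exact le_sup_left
    · exact le_sup_of_le_right (le_iSup₂_of_le p hp le_rfl)
  obtain ⟨a, ha, b, hb, hab⟩ := Submodule.mem_sup.1 (h1 htop)
  have h2 : b ∈ T.eigenspace (q : ℂ) := by
    rw [Module.End.mem_eigenspace_iff]
    show b ᵥ* ΦW = (q : ℂ) • b
    have h3 : b = z - a := by rw [← hab]; abel
    rw [h3, sub_vecMul, hz, hΦW q a ha, smul_sub]
  have h3 : b ∈ ⨆ μ ≠ (q : ℂ), T.eigenspace μ := by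
    have h4 : (⨆ p ≠ q, U p) ≤ ⨆ μ ≠ (q : ℂ), T.eigenspace μ := by
      refine iSup₂_le fun p hp => ?_
      refine le_iSup₂_of_le (p : ℂ) (fun h => hp (by exact_mod_cast h)) ?_
      intro y hy
      rw [Module.End.mem_eigenspace_iff]
      exact hΦW p y hy
    exact h4 hb
  have h5 := (Module.End.eigenspaces_iSupIndep T) (q : ℂ)
  have h6 := (Submodule.mem_bot ℂ).1 (h5.le_bot ⟨h2, h3⟩)
  rw [← hab, h6, add_zero]
  exact ha

/-- classes of pure type are eigenvectors of the Hodge operator -/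
theorem types_eig {V : Fin k → ℕ → Submodule ℂ (Fin n → ℂ)} {U : ℤ → Submodule ℂ (Fin v → ℂ)}
    {Φ : Fin k → Matrix (Fin n) (Fin n) ℂ} (hΦ : ∀ i, ∀ p < n, ∀ v ∈ V i p, v ᵥ* Φ i = (p : ℂ) • v)
    (hΦW : ∀ p, ∀ z ∈ U p, z ᵥ* ΦW = (p : ℂ) • z) {P : ℤ} {f : Ten ℂ r s n v} (hf : f ∈ Types ν V c U P) :
    Tot c ν Φ ΦW 1 f = (P : ℂ) • f := by
  classical
  have h0 : Types ν V c U P ≤ (Tot c ν Φ ΦW 1).eigenspace (P : ℂ) := by
    refine Submodule.span_le.2 ?_
    rintro _ ⟨p, h, q, w, hh, hw, hP, rfl⟩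
    show _ ∈ (Tot c ν Φ ΦW 1).eigenspace (P : ℂ)
    rw [Module.End.mem_eigenspace_iff]
    have hx : ∀ x, R x (bl ν (Φ (c x)) 1) (fun J b => (∏ x, h x (J x)) * w b : Ten ℂ r s n v) =
        (p x : ℂ) • (fun J b => (∏ x, h x (J x)) * w b : Ten ℂ r s n v) := by
      intro x
      have hv : h x ᵥ* bl ν (Φ (c x)) 1 = (p x : ℂ) • h x := by
        funext y
        obtain ⟨h1, h2⟩ := hh x
        rcases y with e | l
        · rw [vecMul, dotProduct, Fintype.sum_sum_type]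
          have h3 : ∑ l, h x (Sum.inr l) * bl ν (Φ (c x)) 1 (Sum.inr l) (Sum.inl e) = 0 :=
            Finset.sum_eq_zero fun l _ => by
              show h x (Sum.inr l) * 0 = 0
              rw [mul_zero]
          rw [h3, add_zero, Finset.sum_eq_single e]
          · show h x (Sum.inl e) * ((1 : ℂ) • diagonal fun e => (ν e : ℂ)) e e = (p x : ℂ) * h x (Sum.inl e)
            rw [one_smul, diagonal_apply_eq]
            by_cases he : h x (Sum.inl e) = 0
            · rw [he, zero_mul, mul_zero]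
            · rw [h1 e he, mul_comm]
          · intro e' _ he'
            show h x (Sum.inl e') * ((1 : ℂ) • diagonal fun e => (ν e : ℂ)) e' e = 0
            rw [one_smul, diagonal_apply_ne _ he', mul_zero]
          · intro hc
            exact absurd (Finset.mem_univ _) hc
        · rw [vecMul, dotProduct, Fintype.sum_sum_type]
          have h3 : ∑ e, h x (Sum.inl e) * bl ν (Φ (c x)) 1 (Sum.inl e) (Sum.inr l) = 0 :=
            Finset.sum_eq_zero fun e _ => by
              show h x (Sum.inl e) * 0 = 0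
              rw [mul_zero]
          rw [h3, zero_add]
          rcases h2 with ⟨hpn, h2⟩ | h2
          · exact congrFun (hΦ (c x) (p x) hpn _ h2) l
          · rw [Pi.smul_apply, h2 l, smul_zero]
            exact Finset.sum_eq_zero fun l' _ => by rw [h2 l', zero_mul]
      funext J b
      rw [R_apply]
      have h1 : ∀ y, ∏ x', h x' (Function.update J x y x') = h x y * ∏ x' ∈ Finset.univ.erase x, h x' (J x') := by
        intro y
        rw [← Finset.mul_prod_erase _ _ (Finset.mem_univ x), Function.update_self]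
        congr 1
        refine Finset.prod_congr rfl fun x' hx' => ?_
        rw [Function.update_of_ne (Finset.ne_of_mem_erase hx')]
      have h2 := congrFun hv (J x)
      rw [Matrix.vecMul, dotProduct, Pi.smul_apply, smul_eq_mul] at h2
      calc ∑ y, bl ν (Φ (c x)) 1 y (J x) * ((∏ x', h x' (Function.update J x y x')) * w b) =
          (∑ y, h x y * bl ν (Φ (c x)) 1 y (J x)) * ((∏ x' ∈ Finset.univ.erase x, h x' (J x')) * w b) := by
            rw [Finset.sum_mul]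
            refine Finset.sum_congr rfl fun y _ => ?_
            rw [h1]
            ring
        _ = (p x : ℂ) * ((∏ x, h x (J x)) * w b) := by
            rw [h2, ← Finset.mul_prod_erase _ (fun x => h x (J x)) (Finset.mem_univ x)]
            ring
    have hz : (ZZ ΦW : Module.End ℂ (Ten ℂ r s n v)) (fun J b => (∏ x, h x (J x)) * w b : Ten ℂ r s n v) =
        (q : ℂ) • (fun J b => (∏ x, h x (J x)) * w b : Ten ℂ r s n v) := by
      funext J
      have h1 : (fun b => (∏ x, h x (J x)) * w b) = (∏ x, h x (J x)) • w := rfl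
      rw [ZZ_apply, h1, smul_vecMul, hΦW q w hw, smul_comm]
      rfl
    unfold Tot
    rw [LinearMap.add_apply, LinearMap.sum_apply, Finset.sum_congr rfl fun x _ => hx x, hz, ← Finset.sum_smul, ← add_smul,
      ← hP]
    congr 1
    push_cast
    rfl
  exact Module.End.mem_eigenspace_iff.1 (h0 hf)

end

end Pool.Agent.T6.H21.GH
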